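import Mathlib

/-!
Shared definitions for the solution of the question on closed isolated normal subgroups of
torsion-free locally nilpotent locally compact groups.
-/

set_option autoImplicit false

open scoped commutatorElement

namespace Pool.Agent.Helper87.ILN

/-- `nestComm [g₁, …, g_c] y = ⁅g₁, ⁅g₂, … ⁅g_c, y⁆ … ⁆⁆`. -/
def nestComm {G : Type*} [Group G] : List G → G → G
  | [], y => y
  | g :: l, y => ⁅g, nestComm l y⁆

/-- Torsion-freeness in the form used by the problem. -/
def TorsionFree (G : Type*) [Group G] : Prop :=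
  ∀ g : G, ∀ n : ℕ, 0 < n → g ^ n = 1 → g = 1

/-- Local nilpotency in the form used by the problem. -/
def LocNilp (G : Type*) [Group G] : Prop :=
  ∀ s : Finset G, Group.IsNilpotent (Subgroup.closure (s : Set G))

/-- Uniform local nilpotency: for every `k` there is `c` such that in every subgroup generated by
`k` elements all `c`-fold nested commutators vanish. -/
def UnifLocNilp (G : Type*) [Group G] : Prop :=
  ∀ k : ℕ, ∃ c : ℕ, ∀ f : Fin k → G, ∀ l : List G, l.length = c →
    (∀ x ∈ l, x ∈ Subgroup.closure (Set.range f)) →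
    ∀ y ∈ Subgroup.closure (Set.range f), nestComm l y = 1

/-- Polynomial sequences `ℤ → G`: the group (under pointwise multiplication) generated by the
constant sequences and the sequences `s ↦ x ^ s`. -/
def PSeq (G : Type*) [Group G] : Subgroup (ℤ → G) :=
  Subgroup.closure ({p | ∃ c : G, p = fun _ => c} ∪ {p | ∃ x : G, p = fun s => x ^ s})

theorem PSeq.const {G : Type*} [Group G] (c : G) : (fun _ => c : ℤ → G) ∈ PSeq G :=
  Subgroup.subset_closure (Or.inl ⟨c, rfl⟩)

theorem PSeq.zpow {G : Type*} [Group G] (x : G) : (fun s => x ^ s : ℤ → G) ∈ PSeq G :=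
  Subgroup.subset_closure (Or.inr ⟨x, rfl⟩)

theorem PSeq.mul {G : Type*} [Group G] {p q : ℤ → G} (hp : p ∈ PSeq G) (hq : q ∈ PSeq G) :
    (fun s => p s * q s) ∈ PSeq G :=
  (PSeq G).mul_mem hp hq

theorem PSeq.inv {G : Type*} [Group G] {p : ℤ → G} (hp : p ∈ PSeq G) :
    (fun s => (p s)⁻¹) ∈ PSeq G :=
  (PSeq G).inv_mem hp

/-- The vanishing principle for polynomial sequences. -/
def PSProp (G : Type*) [Group G] : Prop :=
  ∀ p ∈ PSeq G, {s : ℤ | p s = 1}.Infinite → ∀ s, p s = 1

end Pool.Agent.Helper87.ILN
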