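import Mathlib

/-!
Polynomials with coefficients in a noncommutative `ℚ`-algebra, evaluated at rational numbers.
-/

set_option autoImplicit false

open Polynomial

namespace Pool.Agent.Helper87.ILN

universe u v

variable {R : Type u} [Ring R] [Algebra ℚ R]

/-- Evaluation at the central element `t : ℚ`. -/
noncomputable def evq (t : ℚ) : R[X] →+* R :=
  eval₂RingHom' (RingHom.id R) (algebraMap ℚ R t) (fun a => (Algebra.commutes t a).symm)

theorem evq_C (t : ℚ) (a : R) : evq t (C a) = a := by
  simp [evq, eval₂RingHom']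

theorem evq_X (t : ℚ) : evq t (X : R[X]) = algebraMap ℚ R t := by
  simp [evq, eval₂RingHom']

theorem evq_eq_sum (t : ℚ) (p : R[X]) :
    evq t p = ∑ i ∈ Finset.range (p.natDegree + 1), t ^ i • p.coeff i := by
  have : evq t p = eval₂ (RingHom.id R) (algebraMap ℚ R t) p := rfl
  rw [this, eval₂_eq_sum_range]
  refine Finset.sum_congr rfl fun i _ => ?_
  rw [← map_pow, RingHom.id_apply, ← Algebra.commutes, Algebra.smul_def]

/-- A vector valued polynomial function vanishing at infinitely many rationals has zero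
coefficients. -/
theorem coeff_zero_of_infinite {V : Type v} [AddCommGroup V] [Module ℚ V] (n : ℕ) (c : ℕ → V)
    (S : Set ℚ) (hS : S.Infinite) (h : ∀ t ∈ S, ∑ i ∈ Finset.range n, t ^ i • c i = 0) :
    ∀ i < n, c i = 0 := by
  intro i hi
  rw [← Module.forall_dual_apply_eq_zero_iff ℚ]
  intro φ
  set p : ℚ[X] := ∑ i ∈ Finset.range n, C (φ (c i)) * X ^ i with hp
  have hp0 : p = 0 := by
    apply Polynomial.eq_zero_of_infinite_isRoot
    refine hS.mono fun t ht => ?_
    have := congrArg φ (h t ht)
    simp only [map_sum, map_smul, smul_eq_mul, map_zero] at this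
    simp only [Set.mem_setOf_eq, IsRoot.def, hp, eval_finset_sum, eval_mul, eval_C, eval_pow,
      eval_X]
    rw [← this]
    exact Finset.sum_congr rfl fun _ _ => mul_comm _ _
  have h2 : p.coeff i = φ (c i) := by
    rw [hp]
    simp only [finset_sum_coeff, coeff_C_mul, coeff_X_pow]
    rw [Finset.sum_eq_single i]
    · simp
    · intro b _ hb
      simp [Ne.symm hb]
    · intro hi'
      exact absurd (Finset.mem_range.mpr hi) hi'
  rw [← h2, hp0, coeff_zero]

/-- If a polynomial takes values in a subspace at infinitely many rationals, then all its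
coefficients lie in the subspace. -/
theorem coeff_mem_of_infinite (T : Submodule ℚ R) (p : R[X]) (S : Set ℚ) (hS : S.Infinite)
    (h : ∀ t ∈ S, evq t p ∈ T) (i : ℕ) : p.coeff i ∈ T := by
  by_cases hi : i < p.natDegree + 1
  · have := coeff_zero_of_infinite (V := R ⧸ T) (p.natDegree + 1) (fun i => T.mkQ (p.coeff i))
      S hS (fun t ht => by
        have h1 := h t ht
        rw [evq_eq_sum] at h1
        have h2 := (Submodule.Quotient.mk_eq_zero T).mpr h1
        rw [← Submodule.mkQ_apply, map_sum] at h2
        simpa only [map_smul] using h2) i hi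
    simpa using this
  · rw [coeff_eq_zero_of_natDegree_lt (by omega)]
    exact T.zero_mem

theorem infinite_range_intCast : (Set.range (Int.cast : ℤ → ℚ)).Infinite :=
  Set.infinite_range_of_injective Int.cast_injective

theorem coeff_mem_of_int (T : Submodule ℚ R) (p : R[X])
    (h : ∀ t : ℤ, evq (t : ℚ) p ∈ T) (i : ℕ) : p.coeff i ∈ T :=
  coeff_mem_of_infinite T p _ infinite_range_intCast (by rintro _ ⟨t, rfl⟩; exact h t) i

theorem coeff_mem_of_rat (T : Submodule ℚ R) (p : R[X])
    (h : ∀ t : ℚ, evq t p ∈ T) (i : ℕ) : p.coeff i ∈ T :=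
  coeff_mem_of_int T p (fun t => h _) i

theorem eq_zero_of_int (p : R[X]) (h : ∀ t : ℤ, evq (t : ℚ) p = 0) : p = 0 := by
  ext i
  have := coeff_mem_of_int ⊥ p (fun t => by simpa using h t) i
  simpa using this

theorem eq_zero_of_infinite (p : R[X]) (S : Set ℤ) (hS : S.Infinite)
    (h : ∀ t ∈ S, evq (t : ℚ) p = 0) : p = 0 := by
  ext i
  have := coeff_mem_of_infinite ⊥ p ((Int.cast : ℤ → ℚ) '' S)
    (hS.image (Int.cast_injective.injOn)) (by
      rintro _ ⟨t, ht, rfl⟩
      simpa using h t ht) i
  simpa using this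

/-- The linear part of `(x + t e) ^ m`. -/
def linPart (x e : R) : ℕ → R
  | 0 => 0
  | m + 1 => linPart x e m * x + x ^ m * e

theorem coeff_zero_pow (x e : R) (m : ℕ) : ((C x + X * C e : R[X]) ^ m).coeff 0 = x ^ m := by
  induction m with
  | zero => simp
  | succ m ih => rw [pow_succ, mul_coeff_zero, ih, pow_succ]; simp

theorem coeff_one_pow (x e : R) (m : ℕ) :
    ((C x + X * C e : R[X]) ^ m).coeff 1 = linPart x e m := by
  induction m with
  | zero => simp [linPart, coeff_one]
  | succ m ih =>
    rw [pow_succ, mul_coeff_one, ih, coeff_zero_pow]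
    simp [linPart, coeff_C]
    rw [add_comm]

theorem evq_lin (x e : R) (t : ℚ) : evq t (C x + X * C e : R[X]) = x + t • e := by
  rw [map_add, map_mul, evq_C, evq_C, evq_X, Algebra.smul_def]

end Pool.Agent.Helper87.ILN
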