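import Pool.Agent.Helper87.ILN.PrimeB

/-!
Prime rings generated by a nil Lie subspace of bounded index which is uniformly locally nilpotent
are trivial.
-/

set_option autoImplicit false

open scoped TensorProduct
open Polynomial

namespace Pool.Agent.Helper87.ILN

universe u v w

/-- The statement of the main theorem for index `n`. -/
def StB (n : ℕ) : Prop :=
  ∀ (R : Type u) [Ring R] [Algebra ℚ R] (E : Submodule ℚ R), PrimeRing R →
    (∀ x ∈ E, ∀ y ∈ E, x * y - y * x ∈ E) → (∀ x ∈ E, x ^ n = 0) → LocBound E →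
    Algebra.adjoin ℚ (E : Set R) = ⊤ → E = ⊥

section Base

variable {R : Type u} [Ring R] [Algebra ℚ R] {E : Submodule ℚ R} {ι : Type u} {𝒰 : Filter ι}
  {r : ι → R}

theorem radOn_one {n : ℕ} (ih : StB.{u} n) (hE : ∀ x ∈ E, ∀ y ∈ E, x * y - y * x ∈ E)
    (hn : ∀ x ∈ E, x ^ (n + 1) = 0) (hloc : LocBound E)
    (hr : ∀ e ∈ E, (Function.const ι e) * r ∈ Nul (R := R) 𝒰) : RadOn E 𝒰 r 1 := by
  intro P hP hker
  have := hP.two
  have hker0 : ∀ a, rho E 𝒰 a = 0 → a ∈ P := fun a ha => hker a (by simp [ha])
  let E' : Submodule ℚ (FreeAlgebra ℚ E ⧸ P) :=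
    { carrier := {x | ∃ e : E, Ideal.Quotient.mk P (FreeAlgebra.ι ℚ e) = x}
      add_mem' := by
        rintro _ _ ⟨e, rfl⟩ ⟨e', rfl⟩
        refine ⟨e + e', ?_⟩
        rw [← map_add, Ideal.Quotient.eq]
        refine hker0 _ ?_
        rw [map_sub, map_add, rho_ι, rho_ι, rho_ι, ← map_add, ← map_sub]
        have : Function.const ι ((e + e' : E) : R) -
            (Function.const ι (e : R) + Function.const ι (e' : R)) = 0 := by
          funext i
          simp
        rw [this, map_zero]
      zero_mem' := by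
        refine ⟨0, ?_⟩
        rw [Ideal.Quotient.eq_zero_iff_mem]
        refine hker0 _ ?_
        rw [rho_ι]
        have : Function.const ι ((0 : E) : R) = 0 := by
          funext i
          simp
        rw [this, map_zero]
      smul_mem' := by
        rintro c _ ⟨e, rfl⟩
        refine ⟨c • e, ?_⟩
        have h1 : c • Ideal.Quotient.mk P (FreeAlgebra.ι ℚ e) =
            Ideal.Quotient.mk P (c • FreeAlgebra.ι ℚ e) := rfl
        rw [h1, Ideal.Quotient.eq]
        refine hker0 _ ?_
        rw [map_sub, map_smul, rho_ι, rho_ι, ← map_smul, ← map_sub]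
        have : Function.const ι ((c • e : E) : R) - c • Function.const ι (e : R) = 0 := by
          funext i
          simp
        rw [this, map_zero] }
  have key := ih (FreeAlgebra ℚ E ⧸ P) E' ?_ ?_ ?_ ?_ ?_
  · intro e
    have h1 : Ideal.Quotient.mk P (FreeAlgebra.ι ℚ e) ∈ E' := ⟨e, rfl⟩
    rw [key, Submodule.mem_bot, Ideal.Quotient.eq_zero_iff_mem] at h1
    exact h1
  · -- prime
    intro x y hxy
    obtain ⟨x, rfl⟩ := Ideal.Quotient.mk_surjective x
    obtain ⟨y, rfl⟩ := Ideal.Quotient.mk_surjective y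
    have := hP.prime x y (fun s => by
      have := hxy (Ideal.Quotient.mk P s)
      rwa [← map_mul, ← map_mul, Ideal.Quotient.eq_zero_iff_mem] at this)
    rcases this with h | h
    · exact Or.inl (Ideal.Quotient.eq_zero_iff_mem.mpr h)
    · exact Or.inr (Ideal.Quotient.eq_zero_iff_mem.mpr h)
  · -- commutators
    rintro _ ⟨e, rfl⟩ _ ⟨e', rfl⟩
    refine ⟨⟨(e : R) * e' - e' * e, hE _ e.2 _ e'.2⟩, ?_⟩
    rw [← map_mul, ← map_mul, ← map_sub, Ideal.Quotient.eq]
    refine hker0 _ ?_
    rw [map_sub, map_sub, map_mul, map_mul, rho_ι, rho_ι, rho_ι, ← map_mul, ← map_mul, ← map_sub,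
      ← map_sub]
    have : Function.const ι ((e : R) * e' - e' * e) -
        (Function.const ι (e : R) * Function.const ι (e' : R) -
          Function.const ι (e' : R) * Function.const ι (e : R)) = 0 := by
      funext i
      simp
    rw [this, map_zero]
  · -- index
    rintro _ ⟨e, rfl⟩
    rw [← map_pow, Ideal.Quotient.eq_zero_iff_mem]
    refine hker _ fun w hw => ?_
    obtain ⟨q, hq, rfl⟩ := mem_Fw.mp hw
    have hq' : q ∈ piE ι E := by simpa [Qw] using hq
    rw [map_pow, rho_ι, ← map_pow, op_mk, mk_eq_zero]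
    exact pow_mul_mem_Nul (piE_pow hn) (const_mem_piE e.2) hq' (hr e e.2)
  · -- local bound
    intro k
    obtain ⟨c, hc⟩ := hloc k
    refine ⟨c, fun f hf l hl => ?_⟩
    choose e he using hf
    have h1 : (l.map f).prod =
        Ideal.Quotient.mk P ((l.map fun i => FreeAlgebra.ι ℚ (e i)).prod) := by
      rw [map_list_prod, List.map_map]
      congr 1
      refine List.map_congr_left fun i _ => ?_
      simp [he]
    rw [h1, Ideal.Quotient.eq_zero_iff_mem]
    refine hker0 _ ?_
    rw [rho_eq, map_list_prod, List.map_map]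
    have h2 : (List.map ((evR E : FreeAlgebra ℚ E → R) ∘ fun i => FreeAlgebra.ι ℚ (e i)) l) =
        l.map fun i => ((e i : E) : R) := by
      refine List.map_congr_left fun i _ => ?_
      simp [evR_ι]
    rw [h2, hc (fun i => ((e i : E) : R)) (fun i => (e i).2) l hl]
    have : Function.const ι (0 : R) = 0 := rfl
    rw [this, map_zero]
  · -- generation
    rw [eq_top_iff]
    intro x _
    obtain ⟨a, rfl⟩ := Ideal.Quotient.mk_surjective x
    induction a using FreeAlgebra.induction with
    | grade0 c =>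
      have : Ideal.Quotient.mk P (algebraMap ℚ (FreeAlgebra ℚ E) c) =
        algebraMap ℚ (FreeAlgebra ℚ E ⧸ P) c := rfl
      rw [this]
      exact Subalgebra.algebraMap_mem _ c
    | grade1 e => exact Algebra.subset_adjoin ⟨e, rfl⟩
    | mul a b iha ihb =>
      rw [map_mul]
      exact Subalgebra.mul_mem _ (iha trivial) (ihb trivial)
    | add a b iha ihb =>
      rw [map_add]
      exact Subalgebra.add_mem _ (iha trivial) (ihb trivial)

theorem radOn_all {n : ℕ} (ih : StB.{u} n) (hE : ∀ x ∈ E, ∀ y ∈ E, x * y - y * x ∈ E)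
    (hn : ∀ x ∈ E, x ^ (n + 1) = 0) (hloc : LocBound E)
    (hr : ∀ e ∈ E, (Function.const ι e) * r ∈ Nul (R := R) 𝒰) {j : ℕ} (hj : 1 ≤ j) :
    RadOn E 𝒰 r j := by
  induction j, hj using Nat.le_induction with
  | base => exact radOn_one ih hE hn hloc hr
  | succ j hj ihj => exact radOn_succ hE hr hj (radOn_one ih hE hn hloc hr) ihj

end Base

theorem stB_succ {n : ℕ} (ih : StB.{u} n) (hn1 : 1 ≤ n) : StB.{u} (n + 1) := by
  intro R _ _ E hprime hE hn hloc hgen
  by_contra hbot
  obtain ⟨e₀, he₀, he₀0⟩ := (Submodule.ne_bot_iff _).mp hbot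
  have : Nontrivial R := ⟨e₀, 0, he₀0⟩
  classical
  choose r hr0 hrk using exists_killed (E := E) hloc
  let 𝒰 : Ultrafilter (Finset R) := Ultrafilter.of Filter.atTop
  have h𝒰 : (𝒰 : Filter (Finset R)) ≤ Filter.atTop := Ultrafilter.of_le _
  have hr : ∀ e ∈ E, (Function.const (Finset R) e) * r ∈ Nul (R := R) (𝒰 : Filter (Finset R)) := by
    intro e he
    rw [mem_Nul]
    refine h𝒰 ?_
    filter_upwards [Filter.eventually_ge_atTop ({e} : Finset R)] with Φ hΦ
    exact hrk Φ e (hΦ (Finset.mem_singleton_self e)) he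
  have hrad : RadOn E (𝒰 : Filter (Finset R)) r n := radOn_all ih hE hn hloc hr hn1
  have hsurj := evR_surjective hgen
  have hP : IsPr (RingHom.ker (evR E)) := by
    refine ⟨inferInstance, fun x y hxy => ?_⟩
    have := hprime (evR E x) (evR E y) (fun s => by
      obtain ⟨s, rfl⟩ := hsurj s
      have := hxy s
      rwa [RingHom.mem_ker, map_mul, map_mul] at this)
    simpa [RingHom.mem_ker] using this
  have key := hrad (RingHom.ker (evR E)) hP (fun a ha => ?_) ⟨e₀, he₀⟩
  · rw [RingHom.mem_ker, evR_ι] at key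
    exact he₀0 key
  · rw [RingHom.mem_ker]
    by_contra hne
    choose l hlE hlne hlen hl using fun Φ =>
      exists_word hprime hE hn1 hn hgen he₀ he₀0 hne (hr0 Φ)
    have h1 : (⋃ m ∈ (Finset.range n : Set ℕ), {Φ | (l Φ).length = m + 1}) ∈ 𝒰 := by
      have : (⋃ m ∈ (Finset.range n : Set ℕ), {Φ | (l Φ).length = m + 1}) = Set.univ := by
        rw [Set.eq_univ_iff_forall]
        intro Φ
        have h2 : (l Φ).length ≠ 0 := fun h => hlne Φ (List.length_eq_zero_iff.mp h)
        have h3 := hlen Φ
        simp only [Set.mem_iUnion]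
        refine ⟨(l Φ).length - 1, ?_, ?_⟩
        · simp
          omega
        · simp
          omega
      rw [this]
      exact Filter.univ_mem
    rw [Ultrafilter.finite_biUnion_mem_iff (Finset.finite_toSet _)] at h1
    obtain ⟨m, hm, hmU⟩ := h1
    have hm' : m < n := by simpa using hm
    let l' : Finset R → List R := fun Φ =>
      if (l Φ).length = m + 1 then l Φ else List.replicate (m + 1) 0
    have hq : (fun Φ => (l' Φ).prod) ∈ Qw (piE (Finset R) E) (m + 1) := by
      refine prod_mem_Qw_pi m l' (fun Φ x hx => ?_) (fun Φ => ?_)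
      · by_cases h : (l Φ).length = m + 1
        · simp only [l', if_pos h] at hx
          exact hlE Φ x hx
        · simp only [l', if_neg h] at hx
          rw [List.eq_of_mem_replicate hx]
          exact E.zero_mem
      · by_cases h : (l Φ).length = m + 1
        · simp only [l', if_pos h, h]
        · simp only [l', if_neg h, List.length_replicate]
    have hq' := Qw_mono (piE (Finset R) E) (show m + 1 ≤ n by omega) hq
    have h2 := ha _ (mk_mem_Fw (r := r) (𝒰 := (𝒰 : Filter (Finset R))) hq')
    rw [rho_eq, op_mk, mk_eq_zero, mem_Nul] at h2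
    have h3 : ∀ᶠ Φ in (𝒰 : Filter (Finset R)), False := by
      filter_upwards [h2, hmU] with Φ h4 h5
      have h5' : (l Φ).length = m + 1 := h5
      simp only [Pi.mul_apply, Function.const_apply, l', if_pos h5', ← mul_assoc] at h4
      exact hl Φ h4
    exact h3.exists.elim fun _ h => h

theorem stB_zero : StB.{u} 0 := by
  intro R _ _ E _ _ hn _ _
  rw [Submodule.eq_bot_iff]
  intro x hx
  have h1 : (1 : R) = 0 := by simpa using hn x hx
  calc x = x * 1 := (mul_one x).symm
    _ = 0 := by rw [h1, mul_zero]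

theorem stB_one : StB.{u} 1 := by
  intro R _ _ E _ _ hn _ _
  rw [Submodule.eq_bot_iff]
  intro x hx
  simpa using hn x hx

/-- **Main theorem on prime rings.** -/
theorem stB : ∀ n, StB.{u} n
  | 0 => stB_zero
  | 1 => stB_one
  | n + 2 => stB_succ (stB (n + 1)) (by omega)

end Pool.Agent.Helper87.ILN
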