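import Pool.Agent.Helper87.ILN.Coef

/-!
Integral powers of unipotent units are polynomial in the exponent.
-/

set_option autoImplicit false

open Polynomial

namespace Pool.Agent.Helper87.ILN

universe u v

variable {A : Type u} [Ring A] [Algebra ℚ A]

theorem evq_map (t : ℚ) (p : ℚ[X]) :
    evq t (p.map (algebraMap ℚ A)) = algebraMap ℚ A (p.eval t) := by
  induction p using Polynomial.induction_on' with
  | add p q hp hq => rw [Polynomial.map_add, map_add, hp, hq, eval_add, map_add]
  | monomial n a =>
    rw [map_monomial, ← C_mul_X_pow_eq_monomial, map_mul, map_pow, evq_C, evq_X,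
      eval_monomial, map_mul, map_pow]

/-- `H` is the polynomial of the powers of `h`. -/
def IsPow (h : Aˣ) (H : A[X]) : Prop := ∀ t : ℤ, evq (t : ℚ) H = ((h ^ t : Aˣ) : A)

theorem IsPow.unique {h : Aˣ} {H H' : A[X]} (h1 : IsPow h H) (h2 : IsPow h H') : H = H' := by
  rw [← sub_eq_zero]
  refine eq_zero_of_int _ fun t => ?_
  rw [map_sub, h1 t, h2 t, sub_self]

/-- The binomial polynomial. -/
noncomputable def binPoly (j : ℕ) : ℚ[X] := C ((j.factorial : ℚ)⁻¹) * descPochhammer ℚ j

theorem binPoly_eval_nat (j t : ℕ) : (binPoly j).eval (t : ℚ) = (t.choose j : ℚ) := by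
  rw [binPoly, eval_mul, eval_C, descPochhammer_eval_eq_descFactorial,
    Nat.descFactorial_eq_factorial_mul_choose]
  push_cast
  rw [← mul_assoc, inv_mul_cancel₀ (by positivity), one_mul]

theorem exists_isPow (h : Aˣ) {k : ℕ} (hk : ((h : A) - 1) ^ k = 0) : ∃ H : A[X], IsPow h H := by
  set u : A := (h : A) - 1 with hu
  let H : A[X] := ∑ j ∈ Finset.range k, C (u ^ j) * (binPoly j).map (algebraMap ℚ A)
  let H' : A[X] := ∑ j ∈ Finset.range k,
    C (u ^ j) * ((binPoly j).comp (X + 1)).map (algebraMap ℚ A)
  have hH : ∀ t : ℚ, evq t H = ∑ j ∈ Finset.range k, ((binPoly j).eval t) • u ^ j := by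
    intro t
    simp only [H, map_sum, map_mul, evq_C, evq_map]
    refine Finset.sum_congr rfl fun j _ => ?_
    rw [← Algebra.commutes, ← Algebra.smul_def]
  have hH' : ∀ t : ℚ, evq t H' = evq (t + 1) H := by
    intro t
    rw [hH]
    simp only [H', map_sum, map_mul, evq_C, evq_map, eval_comp, eval_add, eval_X, eval_one]
    refine Finset.sum_congr rfl fun j _ => ?_
    rw [← Algebra.commutes, ← Algebra.smul_def]
  have hnat : ∀ t : ℕ, evq ((t : ℤ) : ℚ) H = (h : A) ^ t := by
    intro t
    have e1 : (h : A) = u + 1 := by rw [hu]; abel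
    rw [hH, e1, (Commute.one_right u).add_pow]
    simp only [Int.cast_natCast, binPoly_eval_nat, one_pow, mul_one]
    rcases le_total (t + 1) k with hle | hle
    · rw [← Finset.sum_subset (Finset.range_mono hle)]
      · refine Finset.sum_congr rfl fun j _ => ?_
        rw [Algebra.smul_def, map_natCast, Nat.cast_comm]
      · intro j _ hj
        rw [Nat.choose_eq_zero_of_lt (by simpa using hj)]
        simp
    · rw [← Finset.sum_subset (Finset.range_mono hle)]
      · refine Finset.sum_congr rfl fun j _ => ?_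
        rw [Algebra.smul_def, map_natCast, Nat.cast_comm]
      · intro j _ hj
        have hj' : k ≤ j := by simpa using hj
        rw [pow_eq_zero_of_le hj' hk, zero_mul]
  have hstep : H' = H * C (h : A) := by
    rw [← sub_eq_zero]
    refine eq_zero_of_infinite _ (Set.range (Nat.cast : ℕ → ℤ))
      (Set.infinite_range_of_injective Nat.cast_injective) ?_
    rintro _ ⟨t, rfl⟩
    rw [map_sub, map_mul, evq_C, hH', sub_eq_zero]
    have := hnat (t + 1)
    push_cast at this ⊢
    rw [this, pow_succ]
    have h2 := hnat t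
    push_cast at h2
    rw [h2]
  have hs : ∀ t : ℤ, evq ((t : ℚ) + 1) H = evq (t : ℚ) H * h := by
    intro t
    rw [← hH', hstep, map_mul, evq_C]
  refine ⟨H, fun t => ?_⟩
  induction t using Int.induction_on with
  | zero => simpa using hnat 0
  | succ n ih =>
    push_cast at ih ⊢
    have := hs n
    push_cast at this
    rw [this, ih, zpow_add_one, Units.val_mul]
  | pred n ih =>
    have := hs (-(n : ℤ) - 1)
    push_cast at this ih ⊢
    rw [sub_add_cancel, ih] at this
    have h3 : evq (-(n : ℚ) - 1) H = ((h ^ (-(n : ℤ)) : Aˣ) : A) * ((h⁻¹ : Aˣ) : A) := by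
      rw [this, mul_assoc, Units.mul_inv, mul_one]
    rw [h3, zpow_sub_one, Units.val_mul]

theorem evq_comp (s t : ℚ) (p : A[X]) :
    evq s (p.comp (X + C (algebraMap ℚ A t))) = evq (s + t) p := by
  induction p using Polynomial.induction_on' with
  | add p q hp hq => rw [add_comp, map_add, hp, hq, map_add]
  | monomial n a =>
    rw [monomial_comp, map_mul, map_pow, map_add, evq_C, evq_C, evq_X,
      ← C_mul_X_pow_eq_monomial, map_mul, map_pow, evq_C, evq_X, map_add]

theorem coeff_one_comp (t : ℚ) (p : A[X]) :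
    (p.comp (X + C (algebraMap ℚ A t))).coeff 1 = evq t (derivative p) := by
  induction p using Polynomial.induction_on' with
  | add p q hp hq => rw [add_comp, coeff_add, hp, hq, derivative_add, map_add]
  | monomial n a =>
    rw [monomial_comp, coeff_C_mul, coeff_X_add_C_pow, derivative_monomial,
      ← C_mul_X_pow_eq_monomial, map_mul, map_pow, evq_C, evq_X]
    rw [Nat.choose_one_right, mul_assoc, Nat.cast_comm]

theorem IsPow.coeff_zero {h : Aˣ} {H : A[X]} (hH : IsPow h H) : H.coeff 0 = 1 := by
  have h1 := hH 0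
  rw [evq_eq_sum] at h1
  rw [Finset.sum_eq_single 0] at h1
  · simpa using h1
  · intro i _ hi
    simp [hi]
  · intro h
    simp at h

theorem IsPow.derivative {h : Aˣ} {H : A[X]} (hH : IsPow h H) :
    Polynomial.derivative H = C (H.coeff 1) * H := by
  rw [← sub_eq_zero]
  refine eq_zero_of_int _ fun t => ?_
  rw [map_sub, map_mul, evq_C, hH t, ← coeff_one_comp]
  have h1 : H.comp (X + C (algebraMap ℚ A t)) = H * C ((h ^ t : Aˣ) : A) := by
    rw [← sub_eq_zero]
    refine eq_zero_of_int _ fun s => ?_
    rw [map_sub, map_mul, evq_C, evq_comp, hH s, ← Units.val_mul, ← zpow_add]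
    have := hH (s + t)
    push_cast at this
    rw [this, sub_self]
  rw [h1, coeff_mul_C, sub_self]

theorem IsPow.coeff_succ {h : Aˣ} {H : A[X]} (hH : IsPow h H) (i : ℕ) :
    H.coeff (i + 1) = ((i : ℚ) + 1)⁻¹ • (H.coeff 1 * H.coeff i) := by
  have h1 := congrArg (fun p => p.coeff i) hH.derivative
  simp only [coeff_derivative, coeff_C_mul] at h1
  rw [← h1]
  have : H.coeff (i + 1) * ((i : A) + 1) = ((i : ℚ) + 1) • H.coeff (i + 1) := by
    rw [Algebra.smul_def, map_add, map_natCast, map_one]
    rw [← Nat.cast_succ, Nat.cast_comm]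
  rw [this, smul_smul, inv_mul_cancel₀ (by positivity), one_smul]

/-- The linear coefficient determines the unipotent element. -/
theorem IsPow.eq_of_coeff_one {h h' : Aˣ} {H H' : A[X]} (hH : IsPow h H) (hH' : IsPow h' H')
    (h1 : H.coeff 1 = H'.coeff 1) : h = h' := by
  have h2 : H = H' := by
    ext i
    induction i with
    | zero => rw [hH.coeff_zero, hH'.coeff_zero]
    | succ i ih => rw [hH.coeff_succ, hH'.coeff_succ, ih, h1]
  have h3 := hH 1
  rw [h2, hH' 1] at h3
  simp only [zpow_one] at h3
  exact (Units.ext h3).symm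

/-- All values minus one lie in the (nonunital) algebra generated by the linear coefficient;
stated through a subspace closed under left multiplication by the linear coefficient. -/
theorem IsPow.sub_one_mem {h : Aˣ} {H : A[X]} (hH : IsPow h H) (T : Submodule ℚ A)
    (h1 : H.coeff 1 ∈ T) (h2 : ∀ x ∈ T, H.coeff 1 * x ∈ T) : ((h : A) - 1) ∈ T := by
  have h3 : ∀ i, H.coeff (i + 1) ∈ T := by
    intro i
    induction i with
    | zero => exact h1
    | succ i ih =>
      rw [hH.coeff_succ]
      exact T.smul_mem _ (h2 _ ih)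
  have h4 := hH 1
  rw [evq_eq_sum, Finset.sum_range_succ', hH.coeff_zero] at h4
  simp only [zpow_one, pow_zero, one_smul] at h4
  rw [← h4, add_sub_cancel_right]
  exact T.sum_mem fun i _ => T.smul_mem _ (h3 i)

end Pool.Agent.Helper87.ILN
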