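import Pool.Agent.Helper87.ILN.Defs
import Pool.Agent.Helper87.ILN.Unip
import Pool.Agent.Helper87.ILN.PrimeC

/-!
The group theoretic consequence of the theorem on prime rings: a nontrivial group with a faithful
unipotent representation of bounded index, uniformly locally nilpotent, contains a nontrivial
element commuting with all its conjugates.
-/

set_option autoImplicit false

open Polynomial
open scoped commutatorElement

namespace Pool.Agent.Helper87.ILN

universe u v

variable {N : Type u} [Group N] {B : Type v} [Ring B] [Algebra ℚ B] (ρ : N →* Bˣ)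

/-- Tangent data. -/
def Tan (e : B) : Prop :=
  ∃ (γ : ℤ → N) (p : B[X]), (∀ t : ℤ, evq (t : ℚ) p = (ρ (γ t) : B)) ∧ p.coeff 0 = 1 ∧
    p.coeff 1 = e

variable {ρ}

theorem evq_comp_mul (s t : ℚ) (p : B[X]) :
    evq s (p.comp (C (algebraMap ℚ B t) * X)) = evq (t * s) p := by
  induction p using Polynomial.induction_on' with
  | add p q hp hq => rw [add_comp, map_add, hp, hq, map_add]
  | monomial n a =>
    rw [monomial_comp, map_mul, map_pow, map_mul, evq_C, evq_C, evq_X,
      ← C_mul_X_pow_eq_monomial, map_mul, map_pow, evq_C, evq_X, map_mul]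

theorem Tan.zero : Tan ρ 0 := by
  refine ⟨fun _ => 1, 1, fun t => by simp, by simp, ?_⟩
  rw [coeff_one]
  simp

theorem Tan.add {e e' : B} (h : Tan ρ e) (h' : Tan ρ e') : Tan ρ (e + e') := by
  obtain ⟨γ, p, hp, h0, h1⟩ := h
  obtain ⟨γ', p', hp', h0', h1'⟩ := h'
  refine ⟨fun t => γ t * γ' t, p * p', fun t => ?_, ?_, ?_⟩
  · rw [map_mul, hp, hp', map_mul, Units.val_mul]
  · rw [mul_coeff_zero, h0, h0', one_mul]
  · rw [mul_coeff_one, h0, h0', h1, h1', one_mul, mul_one, add_comm]

theorem Tan.zsmul {e : B} (h : Tan ρ e) (m : ℤ) : Tan ρ ((m : ℚ) • e) := by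
  obtain ⟨γ, p, hp, h0, h1⟩ := h
  refine ⟨fun t => γ (m * t), p.comp (C (algebraMap ℚ B m) * X), fun t => ?_, ?_, ?_⟩
  · rw [evq_comp_mul]
    have := hp (m * t)
    push_cast at this
    exact this
  · rw [comp_C_mul_X_coeff, h0]
    simp
  · rw [comp_C_mul_X_coeff, h1, pow_one, ← Algebra.commutes, Algebra.smul_def]

omit [Algebra ℚ B] in
/-- Products of polynomials with vanishing constant coefficients. -/
theorem coeff_prod_of_coeff_zero (l : List B[X]) (hl : ∀ p ∈ l, p.coeff 0 = 0) :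
    l.prod.coeff l.length = (l.map fun p => p.coeff 1).prod := by
  have h1 : l.prod = (l.map divX).prod * X ^ l.length := by
    induction l with
    | nil => simp
    | cons p l ih =>
      rw [List.prod_cons, ih (fun q hq => hl q (by simp [hq])), List.map_cons, List.prod_cons,
        List.length_cons, pow_succ]
      have hp : p = divX p * X := by
        have := divX_mul_X_add p
        rw [hl p (by simp), C_0, add_zero] at this
        exact this.symm
      conv_lhs => rw [hp]
      rw [mul_assoc, X_mul, mul_assoc, mul_assoc]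
  rw [h1]
  have h2 := coeff_mul_X_pow (l.map divX).prod l.length 0
  rw [zero_add] at h2
  rw [h2]
  have h3 := map_list_prod (constantCoeff (R := B)) (l.map divX)
  rw [constantCoeff_apply] at h3
  rw [h3, List.map_map]
  congr 1

section

variable {H : N → B[X]}

/-- The span of the linear coefficients. -/
def spanE (H : N → B[X]) : Submodule ℚ B := Submodule.span ℚ (Set.range fun g => (H g).coeff 1)

theorem H_inv_coeff_one (hH : ∀ g, IsPow (ρ g) (H g)) (g : N) :
    (H g⁻¹).coeff 1 = - (H g).coeff 1 := by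
  have hprod : H g * H g⁻¹ = 1 := by
    rw [← sub_eq_zero]
    refine eq_zero_of_int _ fun t => ?_
    rw [map_sub, map_mul, map_one, hH _ t, hH _ t, map_inv, inv_zpow, Units.mul_inv, sub_self]
  have h1 := congrArg (fun p => p.coeff 1) hprod
  simp only [mul_coeff_one, (hH _).coeff_zero, coeff_one] at h1
  simp only [one_mul, mul_one] at h1
  rw [eq_neg_iff_add_eq_zero]
  simpa using h1

theorem H_conj' (hH : ∀ g, IsPow (ρ g) (H g)) (g h : N) :
    H (g * h * g⁻¹) = C (ρ g : B) * H h * C (((ρ g)⁻¹ : Bˣ) : B) := by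
  refine (hH _).unique fun t => ?_
  rw [map_mul, map_mul, evq_C, evq_C, hH h t, ← Units.val_mul, ← Units.val_mul, map_mul, map_mul,
    map_inv, conj_zpow]

theorem conj_mem (hH : ∀ g, IsPow (ρ g) (H g)) (g : N) {e : B} (he : e ∈ spanE H) :
    (ρ g : B) * e * (((ρ g)⁻¹ : Bˣ) : B) ∈ spanE H := by
  induction he using Submodule.span_induction with
  | mem x hx =>
    obtain ⟨h, rfl⟩ := hx
    refine Submodule.subset_span ⟨g * h * g⁻¹, ?_⟩
    simp only
    rw [H_conj' hH, coeff_mul_C, coeff_C_mul]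
  | zero => simp
  | add x y _ _ hx hy =>
    rw [mul_add, add_mul]
    exact Submodule.add_mem _ hx hy
  | smul q x _ hx =>
    rw [mul_smul_comm, smul_mul_assoc]
    exact Submodule.smul_mem _ _ hx

theorem lie_mem (hH : ∀ g, IsPow (ρ g) (H g)) :
    ∀ x ∈ spanE H, ∀ y ∈ spanE H, x * y - y * x ∈ spanE H := by
  intro x hx y hy
  induction hx using Submodule.span_induction with
  | mem x hx =>
    obtain ⟨g, rfl⟩ := hx
    have h1 := coeff_mem_of_int (spanE H) (H g * C y * H g⁻¹) (fun t => by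
      rw [map_mul, map_mul, evq_C, hH g t, hH _ t, ← map_zpow, map_inv, inv_zpow, ← map_zpow]
      exact conj_mem hH _ hy) 1
    rw [mul_coeff_one, coeff_mul_C, coeff_mul_C, (hH _).coeff_zero, (hH _).coeff_zero, one_mul,
      mul_one, H_inv_coeff_one hH] at h1
    simp only
    have h2 : y * -(H g).coeff 1 + (H g).coeff 1 * y = (H g).coeff 1 * y - y * (H g).coeff 1 := by
      rw [mul_neg]
      abel
    rwa [h2] at h1
  | zero => simp
  | add a b _ _ ha hb =>
    have : (a + b) * y - y * (a + b) = (a * y - y * a) + (b * y - y * b) := by noncomm_ring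
    rw [this]
    exact Submodule.add_mem _ ha hb
  | smul q a _ ha =>
    rw [smul_mul_assoc, mul_smul_comm, ← smul_sub]
    exact Submodule.smul_mem _ _ ha

theorem exists_tan (hH : ∀ g, IsPow (ρ g) (H g)) {e : B} (he : e ∈ spanE H) :
    ∃ m : ℤ, m ≠ 0 ∧ Tan ρ ((m : ℚ) • e) := by
  induction he using Submodule.span_induction with
  | mem x hx =>
    obtain ⟨h, rfl⟩ := hx
    refine ⟨1, one_ne_zero, fun t => h ^ t, H h, fun t => ?_, (hH _).coeff_zero, by simp⟩
    rw [hH h t, map_zpow]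
  | zero => exact ⟨1, one_ne_zero, by simpa using Tan.zero⟩
  | add x y _ _ hx hy =>
    obtain ⟨m, hm, hx⟩ := hx
    obtain ⟨m', hm', hy⟩ := hy
    refine ⟨m * m', mul_ne_zero hm hm', ?_⟩
    have := (hx.zsmul m').add (hy.zsmul m)
    rw [smul_smul, smul_smul] at this
    rw [smul_add]
    push_cast
    rwa [mul_comm (m' : ℚ) m] at this
  | smul q x _ hx =>
    obtain ⟨m, hm, hx⟩ := hx
    refine ⟨m * q.den, mul_ne_zero hm (by exact_mod_cast q.den_ne_zero), ?_⟩
    have := hx.zsmul q.num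
    rw [smul_smul] at this ⊢
    have h1 : (((m * (q.den : ℤ) : ℤ)) : ℚ) * q = (q.num : ℚ) * m := by
      push_cast
      rw [mul_assoc, mul_comm (q.den : ℚ) q, Rat.mul_den_eq_num, mul_comm]
    rwa [h1]

theorem locBound_spanE (hH : ∀ g, IsPow (ρ g) (H g))
    (hLB : ∀ k : ℕ, ∃ c : ℕ, ∀ f : Fin k → N, ∀ l : List (Fin k), l.length = c →
      (l.map fun i => ((ρ (f i) : B) - 1)).prod = 0) : LocBound (spanE H) := by
  intro k
  obtain ⟨c, hc⟩ := hLB k
  refine ⟨c, fun f hf l hl => ?_⟩
  choose m hm γ p hp h0 h1 using fun i => exists_tan hH (hf i)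
  have hprod : (l.map fun i => p i - 1).prod = 0 := by
    refine eq_zero_of_int _ fun t => ?_
    rw [map_list_prod, List.map_map]
    have : ((evq (t : ℚ) : B[X] → B) ∘ fun i => p i - 1) = fun i => ((ρ (γ i t) : B) - 1) := by
      funext i
      simp [hp]
    rw [this]
    exact hc (fun i => γ i t) l hl
  have h2 := coeff_prod_of_coeff_zero (l.map fun i => p i - 1) (by
    intro q hq
    obtain ⟨i, _, rfl⟩ := List.mem_map.mp hq
    rw [coeff_sub, h0, coeff_one_zero, sub_self])
  rw [hprod, coeff_zero, List.map_map] at h2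
  have h3 : ((fun q : B[X] => q.coeff 1) ∘ fun i => p i - 1) = fun i => (m i : ℚ) • f i := by
    funext i
    simp only [Function.comp, coeff_sub, h1, coeff_one]
    simp
  rw [h3] at h2
  have h4 : ∀ l : List (Fin k), (l.map fun i => (m i : ℚ) • f i).prod =
      ((l.map fun i => (m i : ℚ)).prod) • (l.map f).prod := by
    intro l
    induction l with
    | nil => simp
    | cons i l ih =>
      rw [List.map_cons, List.prod_cons, ih, List.map_cons, List.prod_cons, List.map_cons,
        List.prod_cons, smul_mul_smul_comm]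
  rw [h4] at h2
  rcases smul_eq_zero.mp h2.symm with h | h
  · exfalso
    rw [List.prod_eq_zero_iff] at h
    obtain ⟨i, _, hi⟩ := List.mem_map.mp h
    exact hm i (by exact_mod_cast hi)
  · exact h

end

/-- A nontrivial group with a faithful unipotent representation of bounded index, uniformly locally
nilpotent, contains a nontrivial element commuting with all its conjugates. -/
theorem core [Nontrivial N] (hinj : ∀ g, ρ g = 1 → g = 1)
    (hLB : ∀ k : ℕ, ∃ c : ℕ, ∀ f : Fin k → N, ∀ l : List (Fin k), l.length = c →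
      (l.map fun i => ((ρ (f i) : B) - 1)).prod = 0) :
    ∃ x : N, x ≠ 1 ∧ ∀ g : N, Commute x (g * x * g⁻¹) := by
  classical
  by_contra hcon
  push Not at hcon
  obtain ⟨n, hn⟩ := hLB 1
  have hpow : ∀ g : N, ((ρ g : B) - 1) ^ n = 0 := by
    intro g
    have := hn (fun _ => g) (List.replicate n 0) (by simp)
    simpa using this
  choose H hH using fun g : N => exists_isPow (ρ g) (hpow g)
  have hloc := locBound_spanE hH hLB
  have hlie := lie_mem hH
  set E := spanE H with hE
  let 𝒜 : Subalgebra ℚ B := Algebra.adjoin ℚ (E : Set B)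
  have hE𝒜 : ∀ e ∈ E, e ∈ 𝒜 := fun e he => Algebra.subset_adjoin he
  have hHE : ∀ g, (H g).coeff 1 ∈ E := fun g => Submodule.subset_span ⟨g, rfl⟩
  have hρ𝒜 : ∀ g, (ρ g : B) ∈ 𝒜 := by
    intro g
    have h1 := (hH g).sub_one_mem (Subalgebra.toSubmodule 𝒜) (hE𝒜 _ (hHE g))
      (fun x hx => 𝒜.mul_mem (hE𝒜 _ (hHE g)) hx)
    have := 𝒜.add_mem h1 𝒜.one_mem
    simpa using this
  let σ : N →* 𝒜 := ((Units.coeHom B).comp ρ).codRestrict 𝒜 hρ𝒜
  have hσ : ∀ g, ((σ g : 𝒜) : B) = ρ g := fun g => rfl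
  -- the sequence
  choose! w hw using hcon
  obtain ⟨x₀, hx₀⟩ := exists_ne (1 : N)
  have hne : ∀ x : {x : N // x ≠ 1}, ⁅x.1, w x.1 * x.1 * (w x.1)⁻¹⁆ ≠ 1 := by
    intro x h
    exact hw x.1 x.2 (commutatorElement_eq_one_iff_commute.mp h)
  let s : ℕ → {x : N // x ≠ 1} := fun k =>
    Nat.rec ⟨x₀, hx₀⟩ (fun _ x => ⟨⁅x.1, w x.1 * x.1 * (w x.1)⁻¹⁆, hne x⟩) k
  have hs : ∀ k, (s (k + 1)).1 = ⁅(s k).1, w (s k).1 * (s k).1 * (w (s k).1)⁻¹⁆ := fun k => rfl
  obtain ⟨Q, _, hQ, hQa⟩ := exists_prime_avoiding (⊥ : Ideal 𝒜) inferInstance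
    (fun k => σ (s k).1 - 1) (by
      intro k hk
      apply (s k).2
      apply hinj
      apply Units.ext
      rw [Ideal.mem_bot, sub_eq_zero] at hk
      have := congrArg Subtype.val hk
      simpa [hσ] using this) (by
      intro k I hI hk
      rw [hs]
      set x := (s k).1 with hx
      set g := w x with hg
      have hb : σ (g * x * g⁻¹) - 1 ∈ I := by
        have h1 : σ (g * x * g⁻¹) - 1 = σ g * (σ x - 1) * σ g⁻¹ := by
          rw [mul_sub, sub_mul, mul_one, ← map_mul, ← map_mul, ← map_mul, mul_inv_cancel, map_one]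
        rw [h1]
        exact hI.mul_mem_of_left _ (I.mul_mem_left _ hk)
      set y := g * x * g⁻¹ with hy
      have h2 : σ ⁅x, y⁆ - 1 = (σ x - 1) * ((σ y - 1) * (σ x⁻¹ * σ y⁻¹)) -
          (σ y - 1) * ((σ x - 1) * (σ x⁻¹ * σ y⁻¹)) := by
        have h3 : σ y * σ x * (σ x⁻¹ * σ y⁻¹) = 1 := by
          rw [← map_mul, ← map_mul, ← map_mul]
          have : y * x * (x⁻¹ * y⁻¹) = 1 := by group
          rw [this, map_one]
        have h4 : σ ⁅x, y⁆ = σ x * σ y * (σ x⁻¹ * σ y⁻¹) := by
          rw [← map_mul, ← map_mul, ← map_mul]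
          congr 1
          rw [commutatorElement_def]
          group
        have h5 : (σ x - 1) * ((σ y - 1) * (σ x⁻¹ * σ y⁻¹)) -
            (σ y - 1) * ((σ x - 1) * (σ x⁻¹ * σ y⁻¹)) =
            σ x * σ y * (σ x⁻¹ * σ y⁻¹) - σ y * σ x * (σ x⁻¹ * σ y⁻¹) := by
          noncomm_ring
        rw [h5, h3, h4]
      rw [h2]
      refine AddSubgroup.sub_mem _ (mul_mem_sq hk ?_) (mul_mem_sq hb ?_)
      · exact hI.mul_mem_of_left _ hb
      · exact hI.mul_mem_of_left _ hk)
  have hQ2 := hQ.two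
  -- the quotient
  let E' : Submodule ℚ (𝒜 ⧸ Q) :=
    (E.comap 𝒜.val.toLinearMap).map (Ideal.Quotient.mkₐ ℚ Q).toLinearMap
  have hE' : ∀ x, x ∈ E' ↔ ∃ a : 𝒜, (a : B) ∈ E ∧ Ideal.Quotient.mk Q a = x := fun x => Iff.rfl
  have key := stB n (𝒜 ⧸ Q) E' ?_ ?_ ?_ ?_ ?_
  · -- conclusion
    have hEQ : ∀ e (he : e ∈ E), (⟨e, hE𝒜 e he⟩ : 𝒜) ∈ Q := by
      intro e he
      have h1 : Ideal.Quotient.mk Q ⟨e, hE𝒜 e he⟩ ∈ E' := (hE' _).mpr ⟨_, he, rfl⟩
      rw [key, Submodule.mem_bot, Ideal.Quotient.eq_zero_iff_mem] at h1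
      exact h1
    let T : Submodule ℚ B := (Q.restrictScalars ℚ).map 𝒜.val.toLinearMap
    have hT : ∀ x, x ∈ T ↔ ∃ a : 𝒜, a ∈ Q ∧ (a : B) = x := fun x => Iff.rfl
    have h1 := (hH (s 0).1).sub_one_mem T ((hT _).mpr ⟨_, hEQ _ (hHE _), rfl⟩) (by
      intro x hx
      obtain ⟨a, ha, rfl⟩ := (hT x).mp hx
      exact (hT _).mpr ⟨⟨_, hE𝒜 _ (hHE _)⟩ * a, Q.mul_mem_left _ ha, rfl⟩)
    obtain ⟨a, ha, hax⟩ := (hT _).mp h1
    apply hQa 0
    have : a = σ (s 0).1 - 1 := by
      apply Subtype.ext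
      rw [hax]
      rfl
    rwa [this] at ha
  · -- prime
    intro x y hxy
    obtain ⟨x, rfl⟩ := Ideal.Quotient.mk_surjective x
    obtain ⟨y, rfl⟩ := Ideal.Quotient.mk_surjective y
    have := hQ.prime x y (fun s => by
      have := hxy (Ideal.Quotient.mk Q s)
      rwa [← map_mul, ← map_mul, Ideal.Quotient.eq_zero_iff_mem] at this)
    rcases this with h | h
    · exact Or.inl (Ideal.Quotient.eq_zero_iff_mem.mpr h)
    · exact Or.inr (Ideal.Quotient.eq_zero_iff_mem.mpr h)
  · -- commutators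
    intro x hx y hy
    obtain ⟨a, ha, rfl⟩ := (hE' x).mp hx
    obtain ⟨b, hb, rfl⟩ := (hE' y).mp hy
    exact (hE' _).mpr ⟨a * b - b * a, hlie _ ha _ hb, by rw [map_sub, map_mul, map_mul]⟩
  · -- index
    intro x hx
    obtain ⟨a, ha, rfl⟩ := (hE' x).mp hx
    obtain ⟨c, hc⟩ := hLB 1
    rw [← map_pow]
    have h1 : (a : B) ^ n = 0 := by
      obtain ⟨m, hm, γ, p, hp, h0, h1⟩ := exists_tan hH ha
      have hprod : (p - 1) ^ n = 0 := by
        refine eq_zero_of_int _ fun t => ?_
        rw [map_pow, map_sub, map_one, hp]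
        exact hpow _
      have h2 := coeff_prod_of_coeff_zero (List.replicate n (p - 1)) (by
        intro q hq
        rw [List.eq_of_mem_replicate hq, coeff_sub, h0, coeff_one_zero, sub_self])
      rw [List.prod_replicate, hprod, coeff_zero, List.map_replicate, List.prod_replicate,
        coeff_sub, h1, coeff_one] at h2
      simp only [one_ne_zero, if_false, sub_zero] at h2
      rw [_root_.smul_pow] at h2
      rcases smul_eq_zero.mp h2.symm with h | h
      · exact absurd (eq_zero_of_pow_eq_zero h) (by exact_mod_cast hm)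
      · exact h
    have h2 : a ^ n = 0 := Subtype.ext (by simpa using h1)
    rw [h2, map_zero]
  · -- local bound
    intro k
    obtain ⟨c, hc⟩ := hloc k
    refine ⟨c, fun f hf l hl => ?_⟩
    choose a ha haf using fun i => (hE' _).mp (hf i)
    have h1 : (l.map f).prod = Ideal.Quotient.mk Q (l.map a).prod := by
      rw [map_list_prod, List.map_map]
      congr 1
      refine List.map_congr_left fun i _ => ?_
      simp [haf]
    have h2 : (l.map a).prod = 0 := by
      apply Subtype.ext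
      have h3 : (((l.map a).prod : 𝒜) : B) = (l.map fun i => (a i : B)).prod := by
        have := map_list_prod 𝒜.val (l.map a)
        rw [List.map_map] at this
        exact this
      rw [h3, hc (fun i => (a i : B)) ha l hl]
      rfl
    rw [h1, h2, map_zero]
  · -- generation
    have h1 : Algebra.adjoin ℚ ((fun a : 𝒜 => (a : B)) ⁻¹' (E : Set B)) = ⊤ :=
      Algebra.adjoin_adjoin_coe_preimage
    have h2 : (E' : Set (𝒜 ⧸ Q)) =
        (Ideal.Quotient.mkₐ ℚ Q) '' ((fun a : 𝒜 => (a : B)) ⁻¹' (E : Set B)) := rfl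
    rw [h2, ← AlgHom.map_adjoin, h1, Algebra.map_top, AlgHom.range_eq_top]
    exact Ideal.Quotient.mkₐ_surjective ℚ Q

end Pool.Agent.Helper87.ILN
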