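import Pool.Agent.Helper87.ILN.Defs
import Pool.Agent.Helper87.ILN.Unip

/-!
The rational module attached to a group (a substitute for its Malcev Lie algebra with the adjoint
action), and its faithfulness for torsion-free locally nilpotent groups.
-/

set_option autoImplicit false

open Polynomial
open scoped commutatorElement

namespace Pool.Agent.Helper87.ILN

/-- The statement on unipotent representations of finitely generated torsion-free nilpotent
groups. -/
def StJ : Prop :=
  ∀ (Γ : Type) [Group Γ] [Group.FG Γ] [Group.IsNilpotent Γ], TorsionFree Γ →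
    ∀ g : Γ, g ≠ 1 → ∃ (A : Type) (_ : Ring A) (_ : Algebra ℚ A) (ρ : Γ →* Aˣ) (k : ℕ),
      (∀ l : List Γ, l.length = k → (l.map (fun x => ((ρ x : A) - 1))).prod = 0) ∧ ρ g ≠ 1

variable {N : Type} [Group N]

/-- Conjugation on the free rational vector space on the group. -/
noncomputable def cj (g : N) : (N →₀ ℚ) →ₗ[ℚ] (N →₀ ℚ) :=
  Finsupp.lmapDomain ℚ ℚ (fun h => g * h * g⁻¹)

theorem cj_single (g h : N) (q : ℚ) : cj g (Finsupp.single h q) =
    Finsupp.single (g * h * g⁻¹) q := by
  simp [cj]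

/-- The element `(g₁ - 1) ⋯ (g_c - 1) e_h`. -/
noncomputable def relE : List N → N → (N →₀ ℚ)
  | [], h => Finsupp.single h 1
  | g :: l, h => cj g (relE l h) - relE l h

/-- The relations. -/
def relSet (N : Type) [Group N] : Set (N →₀ ℚ) :=
  {v | ∃ (l : List N) (h : N), (∀ t : ℤ, nestComm l (h ^ t) = 1) ∧ v = relE l h}

/-- The span of the relations. -/
noncomputable def relSub (N : Type) [Group N] : Submodule ℚ (N →₀ ℚ) :=
  Submodule.span ℚ (relSet N)

theorem cj_cj (x g : N) (v : N →₀ ℚ) : cj x (cj g v) = cj (x * g * x⁻¹) (cj x v) := by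
  induction v using Finsupp.induction_linear with
  | zero => simp
  | add v w hv hw => simp only [map_add, hv, hw]
  | single h q =>
    rw [cj_single, cj_single, cj_single, cj_single]
    congr 1
    group

theorem cj_relE (x : N) (l : List N) (h : N) :
    cj x (relE l h) = relE (l.map fun g => x * g * x⁻¹) (x * h * x⁻¹) := by
  induction l with
  | nil => simp [relE, cj_single]
  | cons g l ih =>
    simp only [relE, List.map_cons, map_sub, ih]
    rw [cj_cj, ih]

theorem nestComm_conj (x : N) (l : List N) (y : N) :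
    nestComm (l.map fun g => x * g * x⁻¹) (x * y * x⁻¹) = x * nestComm l y * x⁻¹ := by
  induction l with
  | nil => rfl
  | cons g l ih =>
    simp only [nestComm, List.map_cons, ih, commutatorElement_def]
    group

theorem relSub_le_comap (x : N) : relSub N ≤ (relSub N).comap (cj x) := by
  refine Submodule.span_le.mpr ?_
  rintro _ ⟨l, h, hl, rfl⟩
  refine Submodule.subset_span ⟨l.map fun g => x * g * x⁻¹, x * h * x⁻¹, fun t => ?_, cj_relE x l h⟩
  rw [conj_zpow, nestComm_conj, hl t]
  group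

/-- The module. -/
abbrev LM (N : Type) [Group N] := (N →₀ ℚ) ⧸ relSub N

/-- The class of a group element. -/
noncomputable def ell (h : N) : LM N := Submodule.Quotient.mk (Finsupp.single h 1)

/-- The action. -/
noncomputable def adM : N →* Module.End ℚ (LM N) where
  toFun x := (relSub N).mapQ (relSub N) (cj x) (relSub_le_comap x)
  map_one' := by
    refine LinearMap.ext fun v => ?_
    obtain ⟨w, rfl⟩ := Submodule.Quotient.mk_surjective _ v
    rw [Submodule.mapQ_apply]
    congr 1
    induction w using Finsupp.induction_linear with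
    | zero => simp
    | add v w hv hw => simp only [map_add, hv, hw]
    | single h q => simp [cj_single]
  map_mul' x y := by
    refine LinearMap.ext fun v => ?_
    obtain ⟨w, rfl⟩ := Submodule.Quotient.mk_surjective _ v
    rw [Module.End.mul_apply, Submodule.mapQ_apply, Submodule.mapQ_apply, Submodule.mapQ_apply]
    congr 1
    induction w using Finsupp.induction_linear with
    | zero => simp
    | add v w hv hw => simp only [map_add, hv, hw]
    | single h q =>
      rw [cj_single, cj_single, cj_single]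
      congr 1
      group

theorem adM_mk (x : N) (v : N →₀ ℚ) :
    adM x (Submodule.Quotient.mk v) = Submodule.Quotient.mk (cj x v) := rfl

theorem adM_ell (x h : N) : adM x (ell h) = ell (x * h * x⁻¹) := by
  rw [ell, adM_mk, cj_single]
  rfl

theorem ext_ell {f g : Module.End ℚ (LM N)} (h : ∀ x, f (ell x) = g (ell x)) : f = g := by
  refine LinearMap.ext fun v => ?_
  obtain ⟨w, rfl⟩ := Submodule.Quotient.mk_surjective _ v
  induction w using Finsupp.induction_linear with
  | zero => simp
  | add v w hv hw => rw [Submodule.Quotient.mk_add, map_add, map_add, hv, hw]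
  | single x q =>
    have : (Submodule.Quotient.mk (Finsupp.single x q) : LM N) = q • ell x := by
      rw [ell, ← Submodule.Quotient.mk_smul]
      congr 1
      simp
    rw [this, map_smul, map_smul, h]

theorem prod_adM_sub_one (l : List N) (h : N) :
    (l.map fun g => adM g - 1).prod (ell h) = Submodule.Quotient.mk (relE l h) := by
  induction l with
  | nil => rfl
  | cons g l ih =>
    rw [List.map_cons, List.prod_cons, Module.End.mul_apply, ih, relE,
      LinearMap.sub_apply, adM_mk, Module.End.one_apply, Submodule.Quotient.mk_sub]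

theorem prod_adM_eq_zero {l : List N} {h : N} (hl : ∀ t : ℤ, nestComm l (h ^ t) = 1) :
    (l.map fun g => adM g - 1).prod (ell h) = 0 := by
  rw [prod_adM_sub_one, Submodule.Quotient.mk_eq_zero]
  exact Submodule.subset_span ⟨l, h, hl, rfl⟩

/-! ### Injectivity of `ell` -/

section Inj

variable {A : Type} [Ring A] [Algebra ℚ A] {Γ : Subgroup N} (ρ : Γ →* Aˣ)
  (H : Γ → A[X])

open Classical in
/-- The linear map given by the linear coefficients. -/
noncomputable def Lam : (N →₀ ℚ) →ₗ[ℚ] A :=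
  Finsupp.linearCombination ℚ (fun γ : N => if hγ : γ ∈ Γ then (H ⟨γ, hγ⟩).coeff 1 else 0)

theorem Lam_single {γ : N} (hγ : γ ∈ Γ) : Lam H (Finsupp.single γ 1) = (H ⟨γ, hγ⟩).coeff 1 := by
  simp [Lam, hγ]

theorem Lam_single_not {γ : N} (hγ : γ ∉ Γ) : Lam H (Finsupp.single γ 1) = 0 := by
  simp [Lam, hγ]

variable {ρ} {H}

theorem H_conj (hH : ∀ γ, IsPow (ρ γ) (H γ)) (g h : Γ) :
    H (g * h * g⁻¹) = C (ρ g : A) * H h * C (((ρ g)⁻¹ : Aˣ) : A) := by
  refine (hH _).unique fun t => ?_
  rw [map_mul, map_mul, evq_C, evq_C, hH h t, ← Units.val_mul, ← Units.val_mul, map_mul, map_mul,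
    map_inv, conj_zpow]

theorem Lam_cj (hH : ∀ γ, IsPow (ρ γ) (H γ)) {g : N} (hg : g ∈ Γ) (v : N →₀ ℚ) :
    Lam H (cj g v) = (ρ ⟨g, hg⟩ : A) * Lam H v * (((ρ ⟨g, hg⟩)⁻¹ : Aˣ) : A) := by
  induction v using Finsupp.induction_linear with
  | zero => simp
  | add v w hv hw => simp only [map_add, hv, hw]; noncomm_ring
  | single h q =>
    have h1 : (Finsupp.single h q : N →₀ ℚ) = q • Finsupp.single h 1 := by simp
    rw [h1, map_smul, map_smul, map_smul, cj_single, mul_smul_comm, smul_mul_assoc]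
    congr 1
    by_cases hh : h ∈ Γ
    · have hc : g * h * g⁻¹ ∈ Γ := Γ.mul_mem (Γ.mul_mem hg hh) (Γ.inv_mem hg)
      rw [Lam_single H hc, Lam_single H hh]
      have : (⟨g * h * g⁻¹, hc⟩ : Γ) = ⟨g, hg⟩ * ⟨h, hh⟩ * ⟨g, hg⟩⁻¹ := rfl
      rw [this, H_conj hH, coeff_mul_C, coeff_C_mul]
    · have hc : g * h * g⁻¹ ∉ Γ := by
        intro hc
        apply hh
        have := Γ.mul_mem (Γ.mul_mem (Γ.inv_mem hg) hc) hg
        have e : g⁻¹ * (g * h * g⁻¹) * g = h := by group
        rwa [e] at this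
      rw [Lam_single_not H hc, Lam_single_not H hh]
      simp

/-- The polynomial of a nested commutator in the powers of an element. -/
theorem exists_poly_nest (hH : ∀ γ, IsPow (ρ γ) (H γ)) (l : List N) (hl : ∀ g ∈ l, g ∈ Γ)
    (h : N) (hh : h ∈ Γ) :
    ∃ (p p' : A[X]) (x : ℤ → Γ), (∀ t, (x t : N) = nestComm l (h ^ t)) ∧
      (∀ t : ℤ, evq (t : ℚ) p = (ρ (x t) : A)) ∧
      (∀ t : ℤ, evq (t : ℚ) p' = (((ρ (x t))⁻¹ : Aˣ) : A)) ∧ p.coeff 0 = 1 ∧ p'.coeff 0 = 1 ∧
      p.coeff 1 = Lam H (relE l h) ∧ p'.coeff 1 = - Lam H (relE l h) := by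
  induction l with
  | nil =>
    have h0 : ∀ t : ℤ, evq (t : ℚ) (H ⟨h, hh⟩⁻¹) = (((ρ (⟨h, hh⟩ ^ t))⁻¹ : Aˣ) : A) := by
      intro t
      rw [hH _ t, map_inv, map_zpow, inv_zpow]
    refine ⟨H ⟨h, hh⟩, H ⟨h, hh⟩⁻¹, fun t => ⟨h, hh⟩ ^ t, fun t => ?_, fun t => ?_, h0,
      (hH _).coeff_zero, (hH _).coeff_zero, ?_, ?_⟩
    · simp [nestComm]
    · rw [hH _ t, map_zpow]
    · simp only [relE]
      rw [Lam_single H hh]
    · have hprod : H ⟨h, hh⟩ * H ⟨h, hh⟩⁻¹ = 1 := by
        rw [← sub_eq_zero]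
        refine eq_zero_of_int _ fun t => ?_
        rw [map_sub, map_mul, map_one, h0, hH _ t, map_zpow, Units.mul_inv, sub_self]
      have h1 := congrArg (fun p => p.coeff 1) hprod
      simp only [mul_coeff_one, (hH _).coeff_zero, coeff_one] at h1
      simp only [one_mul, mul_one] at h1
      simp only [relE]
      rw [Lam_single H hh]
      rw [eq_neg_iff_add_eq_zero]
      simpa using h1
  | cons g l ih =>
    have hg : g ∈ Γ := hl g (by simp)
    obtain ⟨p, p', x, hx, hp, hp', h0, h0', h1, h1'⟩ := ih (fun y hy => hl y (by simp [hy]))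
    refine ⟨C (ρ ⟨g, hg⟩ : A) * p * C (((ρ ⟨g, hg⟩)⁻¹ : Aˣ) : A) * p',
      p * C (ρ ⟨g, hg⟩ : A) * p' * C (((ρ ⟨g, hg⟩)⁻¹ : Aˣ) : A),
      fun t => ⁅(⟨g, hg⟩ : Γ), x t⁆, fun t => ?_, fun t => ?_, fun t => ?_, ?_, ?_, ?_, ?_⟩
    · simp [nestComm, commutatorElement_def, hx]
    · rw [map_mul, map_mul, map_mul, evq_C, evq_C, hp, hp']
      simp only [commutatorElement_def, map_mul, map_inv, Units.val_mul]
    · rw [map_mul, map_mul, map_mul, evq_C, evq_C, hp, hp']
      simp only [commutatorElement_def, map_mul, map_inv, Units.val_mul, mul_inv_rev, inv_inv,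
        mul_assoc]
    · rw [mul_coeff_zero, coeff_mul_C, coeff_C_mul, h0, h0', mul_one, mul_one, Units.mul_inv]
    · rw [coeff_mul_C, mul_coeff_zero, coeff_mul_C, h0, h0', one_mul, mul_one, Units.mul_inv]
    · rw [mul_coeff_one, coeff_mul_C, coeff_mul_C, coeff_C_mul, coeff_C_mul, h0, h0', h1, h1',
        relE, map_sub, Lam_cj hH hg]
      simp only [mul_one, Units.mul_inv, one_mul]
      rw [neg_add_eq_sub]
    · rw [coeff_mul_C, mul_coeff_one, coeff_mul_C, coeff_mul_C, h0, h0', h1, h1',
        relE, map_sub, Lam_cj hH hg]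
      simp only [mul_one, one_mul, mul_neg, add_mul, neg_mul, mul_assoc, Units.mul_inv]
      abel

end Inj

theorem ell_injective (hJ : StJ) (hln : LocNilp N) (htf : TorsionFree N) :
    Function.Injective (ell : N → LM N) := by
  classical
  intro h h' heq
  by_contra hne
  have h1 : Finsupp.single h (1 : ℚ) - Finsupp.single h' 1 ∈ relSub N := by
    rw [← Submodule.Quotient.eq]
    exact heq
  obtain ⟨T, hT, hmem⟩ := Submodule.mem_span_finite_of_mem_span h1
  have hT' : ∀ v : T, ∃ (l : List N) (h : N), (∀ t : ℤ, nestComm l (h ^ t) = 1) ∧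
      (v : N →₀ ℚ) = relE l h := fun v => hT v.2
  choose l k hlk hv using hT'
  let S : Finset N := {h, h'} ∪ Finset.univ.biUnion (fun v : T => insert (k v) (l v).toFinset)
  let Γ : Subgroup N := Subgroup.closure (S : Set N)
  have hSΓ : ∀ x ∈ S, x ∈ Γ := fun x hx => Subgroup.subset_closure hx
  have hh : h ∈ Γ := hSΓ _ (by simp [S])
  have hh' : h' ∈ Γ := hSΓ _ (by simp [S])
  have hk : ∀ v, k v ∈ Γ := fun v => hSΓ _ (by
    simp only [S, Finset.mem_union, Finset.mem_biUnion]
    exact Or.inr ⟨v, by simp⟩)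
  have hl : ∀ v, ∀ g ∈ l v, g ∈ Γ := fun v g hg => hSΓ _ (by
    simp only [S, Finset.mem_union, Finset.mem_biUnion]
    exact Or.inr ⟨v, by simp, by simp [hg]⟩)
  have : Group.IsNilpotent Γ := hln S
  have : Group.FG Γ := by
    exact (Group.fg_iff_subgroup_fg Γ).mpr ⟨S, rfl⟩
  have htfΓ : TorsionFree Γ := by
    intro g n hn hg
    apply Subtype.ext
    refine htf g n hn ?_
    have := congrArg Subtype.val hg
    simpa using this
  obtain ⟨A, _, _, ρ, m, hm, hρ⟩ := hJ Γ htfΓ (⟨h, hh⟩⁻¹ * ⟨h', hh'⟩) (by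
    intro h0
    apply hne
    have := congrArg Subtype.val (inv_mul_eq_one.mp h0)
    exact this)
  have hpow : ∀ γ : Γ, ((ρ γ : A) - 1) ^ m = 0 := by
    intro γ
    have := hm (List.replicate m γ) (by simp)
    simpa using this
  choose H hH using fun γ : Γ => exists_isPow (ρ γ) (hpow γ)
  have hkill : ∀ v ∈ T, Lam H v = 0 := by
    intro v hvT
    obtain ⟨p, p', x, hx, hp, _, _, _, h1, _⟩ :=
      exists_poly_nest hH (l ⟨v, hvT⟩) (hl _) (k ⟨v, hvT⟩) (hk _)
    have hp1 : p = 1 := by
      rw [← sub_eq_zero]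
      refine eq_zero_of_int _ fun t => ?_
      have : x t = 1 := by
        apply Subtype.ext
        rw [hx, hlk]
        rfl
      rw [map_sub, map_one, hp, this, map_one, Units.val_one, sub_self]
    have hv' := hv ⟨v, hvT⟩
    simp only at hv'
    rw [hv', ← h1, hp1, coeff_one]
    simp
  have h2 : Lam H (Finsupp.single h (1 : ℚ) - Finsupp.single h' 1) = 0 := by
    have : Submodule.span ℚ (T : Set (N →₀ ℚ)) ≤ LinearMap.ker (Lam H) :=
      Submodule.span_le.mpr fun v hv => hkill v hv
    exact this hmem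
  rw [map_sub, Lam_single H hh, Lam_single H hh', sub_eq_zero] at h2
  have h3 := (hH _).eq_of_coeff_one (hH _) h2
  apply hρ
  rw [map_mul, map_inv, h3]
  simp

end Pool.Agent.Helper87.ILN
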