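import Pool.Agent.Helper87.ILN.Core
import Pool.Agent.Helper87.ILN.LieMod

/-!
A nontrivial torsion-free uniformly locally nilpotent group contains a nontrivial element commuting
with all its conjugates.
-/

set_option autoImplicit false

open scoped commutatorElement

namespace Pool.Agent.Helper87.ILN

variable {N : Type} [Group N]

theorem locBound_adM (hunif : UnifLocNilp N) (k : ℕ) : ∃ c : ℕ, ∀ f : Fin k → N,
    ∀ l : List (Fin k), l.length = c →
      (l.map fun i => (((adM.toHomUnits : N →* (Module.End ℚ (LM N))ˣ) (f i) :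
        Module.End ℚ (LM N)) - 1)).prod = 0 := by
  obtain ⟨c, hc⟩ := hunif (k + 1)
  refine ⟨c, fun f l hl => ?_⟩
  have h0 : (l.map fun i => (((adM.toHomUnits : N →* (Module.End ℚ (LM N))ˣ) (f i) :
        Module.End ℚ (LM N)) - 1)) = ((l.map f).map fun g => adM g - 1) := by
    rw [List.map_map]
    rfl
  rw [h0]
  refine ext_ell fun h => ?_
  rw [LinearMap.zero_apply]
  refine prod_adM_eq_zero fun t => ?_
  refine hc (Fin.cons h f) (l.map f) (by simpa using hl) ?_ _ ?_
  · intro x hx
    obtain ⟨i, _, rfl⟩ := List.mem_map.mp hx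
    exact Subgroup.subset_closure ⟨i.succ, by simp⟩
  · have h1 : h ∈ Subgroup.closure (Set.range (Fin.cons h f : Fin (k + 1) → N)) :=
      Subgroup.subset_closure ⟨0, by simp⟩
    exact Subgroup.zpow_mem _ h1 t

/-- **The group theoretic core.** A nontrivial torsion-free uniformly locally nilpotent group
contains a nontrivial element commuting with all its conjugates. -/
theorem gt (hJ : StJ) : ∀ (N : Type) [Group N] [Nontrivial N], LocNilp N → TorsionFree N →
    UnifLocNilp N → ∃ x : N, x ≠ 1 ∧ ∀ g : N, Commute x (g * x * g⁻¹) := by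
  intro N _ _ hln htf hunif
  by_contra hcon
  push Not at hcon
  have hinj : ∀ g : N, (adM.toHomUnits : N →* (Module.End ℚ (LM N))ˣ) g = 1 → g = 1 := by
    intro x hx
    by_contra hx1
    obtain ⟨g, hg⟩ := hcon x hx1
    apply hg
    have h1 : adM x = 1 := by
      have := congrArg Units.val hx
      exact this
    have h2 : ∀ h : N, x * h * x⁻¹ = h := by
      intro h
      apply ell_injective hJ hln htf
      rw [← adM_ell, h1, Module.End.one_apply]
    exact mul_inv_eq_iff_eq_mul.mp (h2 (g * x * g⁻¹))
  obtain ⟨x, hx, h⟩ := core (ρ := (adM.toHomUnits : N →* (Module.End ℚ (LM N))ˣ)) hinj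
    (locBound_adM hunif)
  obtain ⟨g, hg⟩ := hcon x hx
  exact hg (h g)


end Pool.Agent.Helper87.ILN
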