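import Pool.Agent.Helper87.ILN.Coef

/-!
Prime two-sided ideals of noncommutative rings: existence of prime ideals avoiding certain
sequences, and the tensor product lemma.
-/

set_option autoImplicit false

open scoped TensorProduct

namespace Pool.Agent.Helper87.ILN

universe u v w

/-- A two-sided ideal which is prime (in the elementwise sense) or the whole ring. -/
structure IsPr {C : Type u} [Ring C] (P : Ideal C) : Prop where
  two : P.IsTwoSided
  prime : ∀ x y, (∀ r, x * r * y ∈ P) → x ∈ P ∨ y ∈ P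

/-- Products of two elements of an ideal. -/
def sq {C : Type u} [Ring C] (I : Ideal C) : AddSubgroup C :=
  AddSubgroup.closure {z | ∃ x ∈ I, ∃ y ∈ I, z = x * y}

theorem mul_mem_sq {C : Type u} [Ring C] {I : Ideal C} {x y : C} (hx : x ∈ I) (hy : y ∈ I) :
    x * y ∈ sq I :=
  AddSubgroup.subset_closure ⟨x, hx, y, hy, rfl⟩

theorem sq_le {C : Type u} [Ring C] (I : Ideal C) : ∀ x ∈ sq I, x ∈ I := by
  intro x hx
  have : sq I ≤ I.toAddSubgroup := by
    refine (AddSubgroup.closure_le _).mpr ?_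
    rintro _ ⟨x, _, y, hy, rfl⟩
    exact I.mul_mem_left x hy
  exact this hx

theorem exists_prime_avoiding {C : Type u} [Ring C] (I₀ : Ideal C) (hI₀ : I₀.IsTwoSided)
    (a : ℕ → C) (h0 : ∀ k, a k ∉ I₀)
    (hstep : ∀ k, ∀ I : Ideal C, I.IsTwoSided → a k ∈ I → a (k + 1) ∈ sq I) :
    ∃ Q : Ideal C, I₀ ≤ Q ∧ IsPr Q ∧ ∀ k, a k ∉ Q := by
  classical
  set S : Set (Ideal C) := {I | I.IsTwoSided ∧ ∀ k, a k ∉ I} with hS
  obtain ⟨Q, hle, hmax⟩ := zorn_le_nonempty₀ S (by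
    intro c hc hchain I hI
    refine ⟨sSup c, ⟨⟨?_⟩, ?_⟩, fun z hz => le_sSup hz⟩
    · intro x y hx
      rw [Submodule.mem_sSup_of_directed ⟨I, hI⟩ hchain.directedOn] at hx ⊢
      obtain ⟨J, hJ, hxJ⟩ := hx
      exact ⟨J, hJ, (hc hJ).1.mul_mem_of_left _ hxJ⟩
    · intro k hk
      rw [Submodule.mem_sSup_of_directed ⟨I, hI⟩ hchain.directedOn] at hk
      obtain ⟨J, hJ, hxJ⟩ := hk
      exact (hc hJ).2 k hxJ) I₀ ⟨hI₀, h0⟩
  have hQS : Q ∈ S := hmax.prop
  have hQ2 : Q.IsTwoSided := hQS.1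
  refine ⟨Q, hle, ⟨hQ2, ?_⟩, hQS.2⟩
  intro x y hxy
  by_contra hcon
  push Not at hcon
  obtain ⟨hx, hy⟩ := hcon
  -- the ideal of all `u` with `u C y ⊆ Q`
  let Jx : Ideal C :=
    { carrier := {u | ∀ c, u * c * y ∈ Q}
      add_mem' := by
        intro u v hu hv c
        rw [add_mul, add_mul]
        exact Q.add_mem (hu c) (hv c)
      zero_mem' := by intro c; simp
      smul_mem' := by
        intro d u hu c
        rw [smul_eq_mul, mul_assoc, mul_assoc, ← mul_assoc u]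
        exact Q.mul_mem_left d (hu c) }
  have hJx2 : Jx.IsTwoSided := ⟨by
    intro u d hu c
    have := hu (d * c)
    rwa [← mul_assoc] at this⟩
  have hQJx : Q ≤ Jx := fun u hu c => by
    rw [mul_assoc]
    exact Q.mul_mem_right _ hu
  let Jy : Ideal C :=
    { carrier := {v | ∀ u ∈ Jx, ∀ c, u * c * v ∈ Q}
      add_mem' := by
        intro v v' hv hv' u hu c
        rw [mul_add]
        exact Q.add_mem (hv u hu c) (hv' u hu c)
      zero_mem' := by intro u _ c; simp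
      smul_mem' := by
        intro d v hv u hu c
        have := hv u hu (c * d)
        rw [smul_eq_mul]
        simpa only [mul_assoc] using this }
  have hJy2 : Jy.IsTwoSided := ⟨by
    intro v d hv u hu c
    have := Q.mul_mem_right d (hv u hu c)
    rwa [mul_assoc] at this⟩
  have hQJy : Q ≤ Jy := fun v hv u _ c => Q.mul_mem_left _ hv
  have hxJ : x ∈ Jx := hxy
  have hyJ : y ∈ Jy := fun u hu c => hu c
  have h1 : ∃ k, a k ∈ Jx := by
    by_contra hno
    push Not at hno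
    exact hx (hmax.le_of_ge (show Jx ∈ S from ⟨hJx2, hno⟩) hQJx hxJ)
  have h2 : ∃ k, a k ∈ Jy := by
    by_contra hno
    push Not at hno
    exact hy (hmax.le_of_ge (show Jy ∈ S from ⟨hJy2, hno⟩) hQJy hyJ)
  obtain ⟨k, hk⟩ := h1
  obtain ⟨l, hl⟩ := h2
  have mono : ∀ (I : Ideal C), I.IsTwoSided → ∀ i j, a i ∈ I → a (i + j) ∈ I := by
    intro I hI i j hi
    induction j with
    | zero => exact hi
    | succ j ih => exact sq_le I _ (hstep _ I hI ih)
  have hk' : a (k + l) ∈ Jx := mono Jx hJx2 k l hk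
  have hl' : a (k + l) ∈ Jy := by
    rw [add_comm]
    exact mono Jy hJy2 l k hl
  have h3 := hstep (k + l) (Jx ⊓ Jy) ⟨fun d hu =>
    ⟨hJx2.mul_mem_of_left d hu.1, hJy2.mul_mem_of_left d hu.2⟩⟩ ⟨hk', hl'⟩
  have h4 : sq (Jx ⊓ Jy) ≤ Q.toAddSubgroup := by
    refine (AddSubgroup.closure_le _).mpr ?_
    rintro _ ⟨u, hu, v, hv, rfl⟩
    have := hv.2 u hu.1 1
    rwa [mul_one] at this
  exact hQS.2 _ (h4 h3)

section Tensor

variable {E : Type u}

/-- The algebra hom `a` from the free algebra on `E` has only prime ideals above its kernel that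
contain `E`. -/
def Rad {B : Type w} [Semiring B] [Algebra ℚ B] (α : FreeAlgebra ℚ E →ₐ[ℚ] B) : Prop :=
  ∀ P : Ideal (FreeAlgebra ℚ E), IsPr P → (∀ a, α a = 0 → a ∈ P) → ∀ e, FreeAlgebra.ι ℚ e ∈ P

/-- The coproduct. -/
noncomputable def coprod (E : Type u) :
    FreeAlgebra ℚ E →ₐ[ℚ] FreeAlgebra ℚ E ⊗[ℚ] FreeAlgebra ℚ E :=
  FreeAlgebra.lift ℚ (fun e => FreeAlgebra.ι ℚ e ⊗ₜ[ℚ] 1 + 1 ⊗ₜ[ℚ] FreeAlgebra.ι ℚ e)

theorem coprod_ι (e : E) : coprod E (FreeAlgebra.ι ℚ e) =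
    FreeAlgebra.ι ℚ e ⊗ₜ[ℚ] 1 + 1 ⊗ₜ[ℚ] FreeAlgebra.ι ℚ e := by
  simp [coprod]

theorem Rad.tensor {B₁ : Type v} {B₂ : Type w} [Semiring B₁] [Algebra ℚ B₁] [Semiring B₂] [Algebra ℚ B₂]
    {D : Type w} [Semiring D] [Algebra ℚ D]
    {α : FreeAlgebra ℚ E →ₐ[ℚ] B₁} {β : FreeAlgebra ℚ E →ₐ[ℚ] B₂} (hα : Rad α) (hβ : Rad β)
    (Ψ : FreeAlgebra ℚ E ⊗[ℚ] FreeAlgebra ℚ E →ₐ[ℚ] D)
    (h1 : ∀ a, α a = 0 → Ψ (a ⊗ₜ 1) = 0) (h2 : ∀ a, β a = 0 → Ψ (1 ⊗ₜ a) = 0) :
    Rad (Ψ.comp (coprod E)) := by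
  intro P hP hker e₀
  by_contra he₀
  have := hP.two
  -- a sequence outside `P`
  have hex : ∀ x : {x : FreeAlgebra ℚ E // x ∉ P}, ∃ t, x.1 * t * x.1 ∉ P := by
    rintro ⟨x, hx⟩
    by_contra hcon
    push Not at hcon
    rcases hP.prime x x hcon with h | h <;> exact hx h
  choose t ht using hex
  let s : ℕ → {x : FreeAlgebra ℚ E // x ∉ P} := fun k =>
    Nat.rec ⟨FreeAlgebra.ι ℚ e₀, he₀⟩ (fun _ x => ⟨x.1 * t x * x.1, ht x⟩) k
  have hs : ∀ k, (s (k + 1)).1 = (s k).1 * t (s k) * (s k).1 := fun k => rfl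
  obtain ⟨Q, hQ0, hQ, hQa⟩ := exists_prime_avoiding (RingHom.ker Ψ.toRingHom) inferInstance
    (fun k => coprod E (s k).1) (by
      intro k hk
      exact (s k).2 (hker _ (by simpa using hk))) (by
      intro k I hI hk
      simp only [hs, map_mul] at hk ⊢
      exact mul_mem_sq (hI.mul_mem_of_left _ hk) hk)
  have := hQ.two
  have hc1 : (FreeAlgebra.ι ℚ e₀) ⊗ₜ[ℚ] (1 : FreeAlgebra ℚ E) ∈ Q := by
    let f : FreeAlgebra ℚ E →+* FreeAlgebra ℚ E ⊗[ℚ] FreeAlgebra ℚ E :=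
      (Algebra.TensorProduct.includeLeft (R := ℚ) (S := ℚ)).toRingHom
    have hf : ∀ x, f x = x ⊗ₜ[ℚ] 1 := fun x => rfl
    have := hα (Q.comap f) ⟨inferInstance, ?_⟩ ?_ e₀
    · simpa [hf] using this
    · intro x y hxy
      have := hQ.prime (f x) (f y) (fun r => ?_)
      · simpa using this
      · induction r using TensorProduct.induction_on with
        | zero => simp
        | tmul u v =>
          have h3 : f x * (u ⊗ₜ[ℚ] v) * f y = (1 ⊗ₜ[ℚ] v) * f (x * u * y) := by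
            simp [hf, Algebra.TensorProduct.tmul_mul_tmul]
          rw [h3]
          exact Q.mul_mem_left _ (by simpa using hxy u)
        | add a b ha hb =>
          rw [mul_add, add_mul]
          exact Q.add_mem ha hb
    · intro a ha
      rw [Ideal.mem_comap]
      apply hQ0
      rw [RingHom.mem_ker]
      exact h1 a ha
  have hc2 : (1 : FreeAlgebra ℚ E) ⊗ₜ[ℚ] (FreeAlgebra.ι ℚ e₀) ∈ Q := by
    let f : FreeAlgebra ℚ E →+* FreeAlgebra ℚ E ⊗[ℚ] FreeAlgebra ℚ E :=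
      (Algebra.TensorProduct.includeRight (R := ℚ) (A := FreeAlgebra ℚ E)).toRingHom
    have hf : ∀ x, f x = 1 ⊗ₜ[ℚ] x := fun x => rfl
    have := hβ (Q.comap f) ⟨inferInstance, ?_⟩ ?_ e₀
    · simpa [hf] using this
    · intro x y hxy
      have := hQ.prime (f x) (f y) (fun r => ?_)
      · simpa using this
      · induction r using TensorProduct.induction_on with
        | zero => simp
        | tmul u v =>
          have h3 : f x * (u ⊗ₜ[ℚ] v) * f y = (u ⊗ₜ[ℚ] 1) * f (x * v * y) := by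
            simp [hf, Algebra.TensorProduct.tmul_mul_tmul]
          rw [h3]
          exact Q.mul_mem_left _ (by simpa using hxy v)
        | add a b ha hb =>
          rw [mul_add, add_mul]
          exact Q.add_mem ha hb
    · intro a ha
      rw [Ideal.mem_comap]
      apply hQ0
      rw [RingHom.mem_ker]
      exact h2 a ha
  have h5 := hQa 0
  apply h5
  change coprod E (FreeAlgebra.ι ℚ e₀) ∈ Q
  rw [coprod_ι]
  exact Q.add_mem hc1 hc2

end Tensor

end Pool.Agent.Helper87.ILN
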