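import Pool.Agent.Helper87.ILN.LieMod

/-!
The vanishing principle for polynomial sequences in torsion-free locally nilpotent groups.
-/

set_option autoImplicit false

open Polynomial

namespace Pool.Agent.Helper87.ILN

/-- Every polynomial sequence takes values in a finitely generated subgroup, and is obtained from
polynomial sequences there. -/
theorem PSeq.exists_fg {G : Type*} [Group G] {p : ℤ → G} (hp : p ∈ PSeq G) :
    ∃ S : Finset G, ∀ Γ : Subgroup G, (S : Set G) ⊆ Γ → ∃ q : ℤ → Γ, q ∈ PSeq Γ ∧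
      ∀ s, (q s : G) = p s := by
  classical
  induction hp using Subgroup.closure_induction with
  | mem p hp =>
    rcases hp with ⟨c, rfl⟩ | ⟨x, rfl⟩
    · exact ⟨{c}, fun Γ hΓ => ⟨fun _ => ⟨c, hΓ (by simp)⟩, PSeq.const _, fun _ => rfl⟩⟩
    · refine ⟨{x}, fun Γ hΓ => ?_⟩
      have hx : x ∈ Γ := hΓ (by simp)
      exact ⟨fun s => (⟨x, hx⟩ : Γ) ^ s, PSeq.zpow _, fun _ => by simp⟩
  | one => exact ⟨∅, fun Γ _ => ⟨1, (PSeq Γ).one_mem, fun _ => rfl⟩⟩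
  | mul p p' _ _ ih ih' =>
    obtain ⟨S, hS⟩ := ih
    obtain ⟨S', hS'⟩ := ih'
    refine ⟨S ∪ S', fun Γ hΓ => ?_⟩
    rw [Finset.coe_union, Set.union_subset_iff] at hΓ
    obtain ⟨q, hq, hqp⟩ := hS Γ hΓ.1
    obtain ⟨q', hq', hqp'⟩ := hS' Γ hΓ.2
    exact ⟨q * q', (PSeq Γ).mul_mem hq hq', fun s => by simp [hqp, hqp']⟩
  | inv p _ ih =>
    obtain ⟨S, hS⟩ := ih
    refine ⟨S, fun Γ hΓ => ?_⟩
    obtain ⟨q, hq, hqp⟩ := hS Γ hΓ
    exact ⟨q⁻¹, (PSeq Γ).inv_mem hq, fun s => by simp [hqp]⟩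

theorem PSeq.exists_poly {Γ : Type*} [Group Γ] {A : Type*} [Ring A] [Algebra ℚ A] (ρ : Γ →* Aˣ)
    {k : ℕ} (hk : ∀ g, ((ρ g : A) - 1) ^ k = 0) {p : ℤ → Γ} (hp : p ∈ PSeq Γ) :
    ∃ P P' : A[X], (∀ s : ℤ, evq (s : ℚ) P = (ρ (p s) : A)) ∧
      (∀ s : ℤ, evq (s : ℚ) P' = (((ρ (p s))⁻¹ : Aˣ) : A)) := by
  induction hp using Subgroup.closure_induction with
  | mem p hp =>
    rcases hp with ⟨c, rfl⟩ | ⟨x, rfl⟩
    · exact ⟨C (ρ c : A), C (((ρ c)⁻¹ : Aˣ) : A), fun s => evq_C _ _, fun s => evq_C _ _⟩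
    · obtain ⟨H, hH⟩ := exists_isPow (ρ x) (hk x)
      obtain ⟨H', hH'⟩ := exists_isPow (ρ x⁻¹) (hk x⁻¹)
      refine ⟨H, H', fun s => ?_, fun s => ?_⟩
      · rw [hH s, map_zpow]
      · rw [hH' s, map_inv, inv_zpow, map_zpow]
  | one => exact ⟨1, 1, fun s => by simp, fun s => by simp⟩
  | mul p p' _ _ ih ih' =>
    obtain ⟨P, P', hP, hP'⟩ := ih
    obtain ⟨Q, Q', hQ, hQ'⟩ := ih'
    refine ⟨P * Q, Q' * P', fun s => ?_, fun s => ?_⟩
    · rw [map_mul, hP, hQ, Pi.mul_apply, map_mul, Units.val_mul]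
    · rw [map_mul, hP', hQ', Pi.mul_apply, map_mul, mul_inv_rev, Units.val_mul]
  | inv p _ ih =>
    obtain ⟨P, P', hP, hP'⟩ := ih
    refine ⟨P', P, fun s => ?_, fun s => ?_⟩
    · rw [hP', Pi.inv_apply, map_inv]
    · rw [hP, Pi.inv_apply, map_inv, inv_inv]

/-- **The vanishing principle.** -/
theorem ps (hJ : StJ) : ∀ (G : Type) [Group G], LocNilp G → TorsionFree G → PSProp G := by
  intro G _ hln htf p hp hinf s₀
  obtain ⟨S, hS⟩ := PSeq.exists_fg hp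
  let Γ : Subgroup G := Subgroup.closure (S : Set G)
  obtain ⟨q, hq, hqp⟩ := hS Γ Subgroup.subset_closure
  have : Group.IsNilpotent Γ := hln S
  have : Group.FG Γ := (Group.fg_iff_subgroup_fg Γ).mpr ⟨S, rfl⟩
  have htfΓ : TorsionFree Γ := by
    intro g n hn hg
    apply Subtype.ext
    refine htf g n hn ?_
    have := congrArg Subtype.val hg
    simpa using this
  rw [← hqp]
  by_contra hne
  have hne' : q s₀ ≠ 1 := fun h => hne (by rw [h]; rfl)
  obtain ⟨A, _, _, ρ, k, hk, hρ⟩ := hJ Γ htfΓ (q s₀) hne'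
  have hpow : ∀ γ : Γ, ((ρ γ : A) - 1) ^ k = 0 := by
    intro γ
    have := hk (List.replicate k γ) (by simp)
    simpa using this
  obtain ⟨P, _, hP, _⟩ := PSeq.exists_poly ρ hpow hq
  have h1 : P = 1 := by
    rw [← sub_eq_zero]
    refine eq_zero_of_infinite _ _ hinf ?_
    intro s hs
    have h2 : q s = 1 := Subtype.ext (by rw [hqp]; exact hs)
    rw [map_sub, map_one, hP, h2, map_one, Units.val_one, sub_self]
  apply hρ
  apply Units.ext
  rw [← hP, h1, map_one, Units.val_one]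

end Pool.Agent.Helper87.ILN
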