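import Pool.Agent.Helper87.ILN.Ultra

/-!
Preparations for the theorem on prime rings: killed elements, words, and the step of the
filtration argument.
-/

set_option autoImplicit false

open scoped TensorProduct
open Polynomial

namespace Pool.Agent.Helper87.ILN

universe u v w

/-- Elementwise prime rings (possibly trivial). -/
def PrimeRing (R : Type u) [Ring R] : Prop :=
  ∀ x y : R, (∀ r, x * r * y = 0) → x = 0 ∨ y = 0

/-- Uniform local nilpotency of a subspace. -/
def LocBound {R : Type u} [Ring R] [Algebra ℚ R] (E : Submodule ℚ R) : Prop :=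
  ∀ k : ℕ, ∃ c : ℕ, ∀ f : Fin k → R, (∀ i, f i ∈ E) →
    ∀ l : List (Fin k), l.length = c → (l.map f).prod = 0

variable {R : Type u} [Ring R] [Algebra ℚ R] {E : Submodule ℚ R}

theorem exists_killed [Nontrivial R] (hloc : LocBound E) (Φ : Finset R) :
    ∃ r : R, r ≠ 0 ∧ ∀ e ∈ Φ, e ∈ E → e * r = 0 := by
  classical
  set S := Φ.filter (· ∈ E) with hS
  obtain ⟨c, hc⟩ := hloc S.card
  let f : Fin S.card → R := fun i => (S.equivFin.symm i : R)
  have hf : ∀ i, f i ∈ E := fun i => (Finset.mem_filter.mp (S.equivFin.symm i).2).2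
  have hex : ∃ m, ∀ l : List (Fin S.card), l.length = m → (l.map f).prod = 0 :=
    ⟨c, fun l hl => hc f hf l hl⟩
  set m := Nat.find hex with hm
  have hm0 : m ≠ 0 := by
    intro h0
    have := Nat.find_spec hex [] (by rw [← hm, h0]; rfl)
    simp at this
  have h1 : ∃ l : List (Fin S.card), l.length = m - 1 ∧ (l.map f).prod ≠ 0 := by
    have := Nat.find_min hex (m := m - 1) (by omega)
    push Not at this
    exact this
  obtain ⟨l, hl, hne⟩ := h1
  refine ⟨(l.map f).prod, hne, fun e he heE => ?_⟩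
  have heS : e ∈ S := Finset.mem_filter.mpr ⟨he, heE⟩
  have h2 : f (S.equivFin ⟨e, heS⟩) = e := by simp [f]
  have h3 := Nat.find_spec hex (S.equivFin ⟨e, heS⟩ :: l) (by
    rw [List.length_cons, hl]
    omega)
  rwa [List.map_cons, List.prod_cons, h2] at h3

theorem mul_left_mem_Qw (hE : ∀ x ∈ E, ∀ y ∈ E, x * y - y * x ∈ E)
    {n : ℕ} (hn : ∀ x ∈ E, x ^ (n + 1) = 0)
    (hgen : Algebra.adjoin ℚ (E : Set R) = ⊤) (x : R) : ∀ s ∈ Qw E n, x * s ∈ Qw E n := by
  have hx : x ∈ Algebra.adjoin ℚ (E : Set R) := hgen ▸ Algebra.mem_top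
  induction hx using Algebra.adjoin_induction with
  | mem e he => exact fun s hs => mul_Qw_le hE hn he hs
  | algebraMap r =>
    intro s hs
    rw [← Algebra.smul_def]
    exact Submodule.smul_mem _ _ hs
  | add a b _ _ iha ihb =>
    intro s hs
    rw [add_mul]
    exact Submodule.add_mem _ (iha s hs) (ihb s hs)
  | mul a b _ _ iha ihb =>
    intro s hs
    rw [mul_assoc]
    exact iha _ (ihb s hs)

theorem exists_word (hprime : PrimeRing R) (hE : ∀ x ∈ E, ∀ y ∈ E, x * y - y * x ∈ E)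
    {n : ℕ} (hn1 : 1 ≤ n) (hn : ∀ x ∈ E, x ^ (n + 1) = 0)
    (hgen : Algebra.adjoin ℚ (E : Set R) = ⊤) {e₀ : R} (he₀ : e₀ ∈ E) (he₀0 : e₀ ≠ 0)
    {a r : R} (ha : a ≠ 0) (hr : r ≠ 0) :
    ∃ l : List R, (∀ x ∈ l, x ∈ E) ∧ l ≠ [] ∧ l.length ≤ n ∧ a * l.prod * r ≠ 0 := by
  by_contra hcon
  push Not at hcon
  have h1 : ∀ q ∈ Qw E n, a * q * r = 0 := by
    have : Qw E n ≤ LinearMap.ker (LinearMap.mulRight ℚ r ∘ₗ LinearMap.mulLeft ℚ a) := by
      refine Qw_le_of fun l hl hne hlen => ?_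
      rw [LinearMap.mem_ker]
      exact hcon l hl hne hlen
    exact fun q hq => this hq
  have h2 : ∀ s ∈ Qw E n, s * r = 0 := by
    intro s hs
    rcases hprime a (s * r) (fun x => by
      rw [mul_assoc, ← mul_assoc x, ← mul_assoc a]
      exact h1 _ (mul_left_mem_Qw hE hn hgen x s hs)) with h | h
    · exact absurd h ha
    · exact h
  rcases hprime e₀ r (fun x => by
    have hx : x ∈ (1 : Submodule ℚ R) ⊔ Qw E n := by
      rw [one_sup_Qw_eq_top hE hn1 hn hgen]
      trivial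
    obtain ⟨c, hc, q, hq, rfl⟩ := Submodule.mem_sup.mp hx
    obtain ⟨c, rfl⟩ := Submodule.mem_one.mp hc
    refine h2 _ ?_
    rw [mul_add]
    refine Submodule.add_mem _ ?_ (mul_Qw_le hE hn he₀ hq)
    rw [← Algebra.commutes, ← Algebra.smul_def]
    exact Submodule.smul_mem _ _ (le_Qw E hn1 he₀)) with h | h
  · exact he₀0 h
  · exact hr h

section Pi

variable {ι : Type v}

/-- Functions with values in `E`. -/
def piE (ι : Type v) (E : Submodule ℚ R) : Submodule ℚ (ι → R) := Submodule.pi Set.univ fun _ => E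

theorem mem_piE {f : ι → R} : f ∈ piE ι E ↔ ∀ i, f i ∈ E := by
  simp [piE]

theorem const_mem_piE {e : R} (he : e ∈ E) : (Function.const ι e) ∈ piE ι E :=
  mem_piE.mpr fun _ => he

theorem piE_lie (hE : ∀ x ∈ E, ∀ y ∈ E, x * y - y * x ∈ E) :
    ∀ x ∈ piE ι E, ∀ y ∈ piE ι E, x * y - y * x ∈ piE ι E := fun x hx y hy =>
  mem_piE.mpr fun i => hE _ (mem_piE.mp hx i) _ (mem_piE.mp hy i)

theorem piE_pow {n : ℕ} (hn : ∀ x ∈ E, x ^ n = 0) : ∀ x ∈ piE ι E, x ^ n = 0 := fun x hx => by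
  funext i
  simpa using hn _ (mem_piE.mp hx i)

theorem prod_mem_Qw_pi : ∀ (m : ℕ) (l : ι → List R), (∀ i, ∀ x ∈ l i, x ∈ E) →
    (∀ i, (l i).length = m + 1) → (fun i => (l i).prod) ∈ Qw (piE ι E) (m + 1) := by
  intro m
  induction m with
  | zero =>
    intro l hl hlen
    refine le_Qw _ le_rfl (mem_piE.mpr fun i => ?_)
    obtain ⟨x, hx⟩ := List.length_eq_one_iff.mp (hlen i)
    rw [hx]
    simpa using hl i x (by simp [hx])
  | succ m ih =>
    intro l hl hlen
    have hne : ∀ i, l i ≠ [] := fun i h => by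
      have := hlen i
      simp [h] at this
    have h1 : (fun i => (l i).prod) = (fun i => (l i).head (hne i)) * (fun i => (l i).tail.prod) := by
      funext i
      rw [Pi.mul_apply, ← List.prod_cons, List.cons_head_tail]
    rw [h1]
    refine mul_mem_Qw_succ (mem_piE.mpr fun i => hl i _ (List.head_mem _)) (ih _ ?_ ?_)
    · exact fun i x hx => hl i x (List.mem_of_mem_tail hx)
    · intro i
      simp [hlen i]

end Pi

end Pool.Agent.Helper87.ILN
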