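import Pool.Agent.Helper87.ILN.PrimeA

/-!
The filtration step.
-/

set_option autoImplicit false

open scoped TensorProduct
open Polynomial

namespace Pool.Agent.Helper87.ILN

universe u v w

section Step

variable {R : Type u} [Ring R] [Algebra ℚ R] (E : Submodule ℚ R) {ι : Type u} (𝒰 : Filter ι)

/-- The action of the free algebra on the ultraproduct. -/
noncomputable def rho : FreeAlgebra ℚ E →ₐ[ℚ] Module.End ℚ ((ι → R) ⧸ Nul (R := R) 𝒰) :=
  FreeAlgebra.lift ℚ (fun e : E => op R 𝒰 (Function.const ι (e : R)))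

/-- The evaluation of the free algebra in the ring. -/
noncomputable def evR : FreeAlgebra ℚ E →ₐ[ℚ] R := FreeAlgebra.lift ℚ (fun e : E => (e : R))

variable {E} {𝒰}

theorem rho_ι (e : E) : rho E 𝒰 (FreeAlgebra.ι ℚ e) = op R 𝒰 (Function.const ι (e : R)) := by
  simp [rho]

theorem evR_ι (e : E) : evR E (FreeAlgebra.ι ℚ e) = (e : R) := by
  simp [evR]

theorem rho_eq (a : FreeAlgebra ℚ E) :
    rho E 𝒰 a = op R 𝒰 (Function.const ι (evR E a)) := by
  have : rho E 𝒰 = ((op R 𝒰).comp (Pi.constAlgHom ℚ ι R)).comp (evR E) := by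
    refine FreeAlgebra.hom_ext ?_
    funext e
    simp only [Function.comp_apply, rho_ι, AlgHom.comp_apply, evR_ι]
    rfl
  rw [this]
  rfl

theorem evR_surjective (hgen : Algebra.adjoin ℚ (E : Set R) = ⊤) :
    Function.Surjective (evR E) := by
  rw [← AlgHom.range_eq_top, ← hgen]
  exact (Algebra.adjoin_eq_range_freeAlgebra_lift ℚ (E : Set R)).symm

variable {r : ι → R}

theorem rho_stable (hE : ∀ x ∈ E, ∀ y ∈ E, x * y - y * x ∈ E)
    (hr : ∀ e ∈ E, (Function.const ι e) * r ∈ Nul (R := R) 𝒰) (j : ℕ)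
    (a : FreeAlgebra ℚ E) : ∀ w ∈ Fw 𝒰 (piE ι E) r j, rho E 𝒰 a w ∈ Fw 𝒰 (piE ι E) r j := by
  induction a using FreeAlgebra.induction with
  | grade0 c =>
    intro w hw
    rw [AlgHom.commutes, Module.algebraMap_end_apply]
    exact Submodule.smul_mem _ _ hw
  | grade1 e =>
    intro w hw
    rw [rho_ι]
    exact op_stable (piE_lie hE) (const_mem_piE e.2) (hr e e.2) j w hw
  | mul a b iha ihb =>
    intro w hw
    rw [map_mul, Module.End.mul_apply]
    exact iha _ (ihb _ hw)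
  | add a b iha ihb =>
    intro w hw
    rw [map_add, LinearMap.add_apply]
    exact Submodule.add_mem _ (iha _ hw) (ihb _ hw)

/-- The property of the `j`-th term of the filtration. -/
def RadOn (E : Submodule ℚ R) (𝒰 : Filter ι) (r : ι → R) (j : ℕ) : Prop :=
  ∀ P : Ideal (FreeAlgebra ℚ E), IsPr P →
    (∀ a, (∀ w ∈ Fw 𝒰 (piE ι E) r j, rho E 𝒰 a w = 0) → a ∈ P) → ∀ e, FreeAlgebra.ι ℚ e ∈ P

/-- The action on the `j`-th term of the filtration. -/
noncomputable def alp (hE : ∀ x ∈ E, ∀ y ∈ E, x * y - y * x ∈ E)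
    (hr : ∀ e ∈ E, (Function.const ι e) * r ∈ Nul (R := R) 𝒰) (j : ℕ) :
    FreeAlgebra ℚ E →ₐ[ℚ] Module.End ℚ (Fw 𝒰 (piE ι E) r j) :=
  FreeAlgebra.lift ℚ (fun e : E => (op R 𝒰 (Function.const ι (e : R))).restrict
    (op_stable (piE_lie hE) (const_mem_piE e.2) (hr e e.2) j))

theorem alp_apply (hE : ∀ x ∈ E, ∀ y ∈ E, x * y - y * x ∈ E)
    (hr : ∀ e ∈ E, (Function.const ι e) * r ∈ Nul (R := R) 𝒰) (j : ℕ)
    (a : FreeAlgebra ℚ E) (w : Fw 𝒰 (piE ι E) r j) :
    ((alp hE hr j a w : Fw 𝒰 (piE ι E) r j) : (ι → R) ⧸ Nul (R := R) 𝒰) = rho E 𝒰 a w := by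
  refine intertwine (alp hE hr j) (rho E 𝒰) (Fw 𝒰 (piE ι E) r j).subtype ?_ a w
  intro e x
  simp only [alp, FreeAlgebra.lift_ι_apply, rho_ι]
  rfl

theorem rad_alp (hE : ∀ x ∈ E, ∀ y ∈ E, x * y - y * x ∈ E)
    (hr : ∀ e ∈ E, (Function.const ι e) * r ∈ Nul (R := R) 𝒰) {j : ℕ} (h : RadOn E 𝒰 r j) :
    Rad (alp hE hr j) := by
  intro P hP hker e
  refine h P hP (fun a ha => hker a ?_) e
  refine LinearMap.ext fun w => ?_
  apply Subtype.ext
  rw [alp_apply]
  simpa using ha w w.2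

/-- The action on the quotient by the `j`-th term of the filtration. -/
noncomputable def quo (hE : ∀ x ∈ E, ∀ y ∈ E, x * y - y * x ∈ E)
    (hr : ∀ e ∈ E, (Function.const ι e) * r ∈ Nul (R := R) 𝒰) (j : ℕ) :
    FreeAlgebra ℚ E →ₐ[ℚ] Module.End ℚ
      (((ι → R) ⧸ Nul (R := R) 𝒰) ⧸ Fw 𝒰 (piE ι E) r j) :=
  FreeAlgebra.lift ℚ (fun e : E => (Fw 𝒰 (piE ι E) r j).mapQ (Fw 𝒰 (piE ι E) r j)
    (op R 𝒰 (Function.const ι (e : R)))
    (op_stable (piE_lie hE) (const_mem_piE e.2) (hr e e.2) j))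

theorem quo_apply (hE : ∀ x ∈ E, ∀ y ∈ E, x * y - y * x ∈ E)
    (hr : ∀ e ∈ E, (Function.const ι e) * r ∈ Nul (R := R) 𝒰) (j : ℕ)
    (a : FreeAlgebra ℚ E) (w : (ι → R) ⧸ Nul (R := R) 𝒰) :
    (Fw 𝒰 (piE ι E) r j).mkQ (rho E 𝒰 a w) = quo hE hr j a ((Fw 𝒰 (piE ι E) r j).mkQ w) := by
  refine intertwine (rho E 𝒰) (quo hE hr j) (Fw 𝒰 (piE ι E) r j).mkQ ?_ a w
  intro e x
  simp only [quo, FreeAlgebra.lift_ι_apply, rho_ι]
  rfl

theorem radOn_succ (hE : ∀ x ∈ E, ∀ y ∈ E, x * y - y * x ∈ E)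
    (hr : ∀ e ∈ E, (Function.const ι e) * r ∈ Nul (R := R) 𝒰) {j : ℕ} (hj : 1 ≤ j)
    (h1 : RadOn E 𝒰 r 1) (h : RadOn E 𝒰 r j) : RadOn E 𝒰 r (j + 1) := by
  intro P hP hker
  set F1 := Fw 𝒰 (piE ι E) r 1 with hF1
  set Fj := Fw 𝒰 (piE ι E) r j with hFj
  have hle : F1 ≤ Fj := Fw_mono hj
  -- the product of the two annihilators is contained in `P`
  have hprod : ∀ a b, (∀ w ∈ Fj, rho E 𝒰 a w = 0) →
      (∀ w ∈ Fw 𝒰 (piE ι E) r (j + 1), rho E 𝒰 b w ∈ Fj) → a ∈ P ∨ b ∈ P := by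
    intro a b ha hb
    refine hP.prime a b fun s => hker _ fun w hw => ?_
    rw [map_mul, map_mul, Module.End.mul_apply, Module.End.mul_apply]
    exact ha _ (rho_stable hE hr j s _ (hb w hw))
  by_cases hcase : ∀ a, (∀ w ∈ Fj, rho E 𝒰 a w = 0) → a ∈ P
  · exact h P hP hcase
  push Not at hcase
  obtain ⟨a₀, ha₀, ha₀P⟩ := hcase
  have hK : ∀ b, (∀ w ∈ Fw 𝒰 (piE ι E) r (j + 1), rho E 𝒰 b w ∈ Fj) → b ∈ P := fun b hb =>
    (hprod a₀ b ha₀ hb).resolve_left ha₀P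
  -- the linear surjection onto `F1` and a section
  let T : piE ι E →ₗ[ℚ] F1 := LinearMap.codRestrict F1
    (((Nul (R := R) 𝒰).mkQ ∘ₗ LinearMap.mulRight ℚ r) ∘ₗ (piE ι E).subtype)
    (fun f => mk_mem_Fw (le_Qw _ le_rfl f.2))
  have hT : ∀ f : piE ι E, ((T f : F1) : (ι → R) ⧸ Nul (R := R) 𝒰) =
      Submodule.Quotient.mk ((f : ι → R) * r) := fun f => rfl
  have hTs : Function.Surjective T := by
    rintro ⟨w, hw⟩
    obtain ⟨q, hq, rfl⟩ := mem_Fw.mp hw
    have hq' : q ∈ piE ι E := by simpa [Qw] using hq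
    exact ⟨⟨q, hq'⟩, Subtype.ext (hT _)⟩
  obtain ⟨s, hs⟩ := T.exists_rightInverse_of_surjective (LinearMap.range_eq_top.mpr hTs)
  have hs' : ∀ x : F1, (Submodule.Quotient.mk ((s x : ι → R) * r) :
      (ι → R) ⧸ Nul (R := R) 𝒰) = x := fun x => by
    rw [← hT (s x)]
    exact congrArg Subtype.val (LinearMap.congr_fun hs x)
  -- if an element of `piE` kills `r` then it preserves `Fj`
  have hstab : ∀ z ∈ piE ι E, (Submodule.Quotient.mk (z * r) : (ι → R) ⧸ Nul (R := R) 𝒰) = 0 →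
      ∀ w ∈ Fj, op R 𝒰 z w ∈ Fj := fun z hz hz0 w hw =>
    op_stable (piE_lie hE) hz (mk_eq_zero.mp hz0) j w hw
  let B : F1 →ₗ[ℚ] Fj →ₗ[ℚ] (((ι → R) ⧸ Nul (R := R) 𝒰) ⧸ Fj) :=
    LinearMap.mk₂ ℚ (fun x w => Fj.mkQ (op R 𝒰 (s x : ι → R) (w : (ι → R) ⧸ Nul (R := R) 𝒰)))
      (fun x y w => by simp [map_add, LinearMap.add_apply])
      (fun c x w => by simp [map_smul, LinearMap.smul_apply])
      (fun x w w' => by simp [map_add])
      (fun c x w => by simp [map_smul])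
  have hB : ∀ x w, B x w = Fj.mkQ (op R 𝒰 (s x : ι → R) (w : (ι → R) ⧸ Nul (R := R) 𝒰)) :=
    fun x w => rfl
  let μ := TensorProduct.lift B
  let Ψ : FreeAlgebra ℚ E ⊗[ℚ] FreeAlgebra ℚ E →ₐ[ℚ] Module.End ℚ (F1 ⊗[ℚ] Fj) :=
    (Module.endTensorEndAlgHom (R := ℚ) (S := ℚ) (A := ℚ) (M := F1) (N := Fj)).comp
      (Algebra.TensorProduct.map (alp hE hr 1) (alp hE hr j))
  have hΨ : ∀ a b, Ψ (a ⊗ₜ b) = TensorProduct.map (alp hE hr 1 a) (alp hE hr j b) := by
    intro a b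
    simp [Ψ]
    rfl
  have hrad : Rad (Ψ.comp (coprod E)) := by
    refine Rad.tensor (rad_alp hE hr h1) (rad_alp hE hr h) Ψ ?_ ?_
    · intro a ha
      rw [hΨ, ha, TensorProduct.map_zero_left]
    · intro a ha
      rw [hΨ, ha, TensorProduct.map_zero_right]
  have heq : ∀ (a : FreeAlgebra ℚ E) (x : F1 ⊗[ℚ] Fj),
      μ ((Ψ.comp (coprod E)) a x) = quo hE hr j a (μ x) := by
    refine intertwine _ _ μ ?_
    intro e x
    induction x using TensorProduct.induction_on with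
    | zero => simp
    | add x y hx hy => rw [map_add, map_add, hx, hy, map_add, map_add]
    | tmul x w =>
      rw [AlgHom.comp_apply, coprod_ι, map_add, hΨ, hΨ, LinearMap.add_apply,
        TensorProduct.map_tmul, TensorProduct.map_tmul, map_one, map_one, map_add]
      simp only [μ, TensorProduct.lift.tmul, hB, Module.End.one_apply]
      rw [← quo_apply, alp_apply, ← map_add, rho_ι, ← sub_eq_zero, ← map_sub,
        Submodule.mkQ_apply, Submodule.Quotient.mk_eq_zero]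
      set ce : ι → R := Function.const ι (e : R) with hce
      have hcE : ce ∈ piE ι E := const_mem_piE e.2
      have hw := w.2
      set sx : ι → R := (s x : ι → R) with hsx
      have hsxE : sx ∈ piE ι E := (s x).2
      set sex : ι → R := (s (alp hE hr 1 (FreeAlgebra.ι ℚ e) x) : ι → R) with hsex
      have hsexE : sex ∈ piE ι E := (s _).2
      have e1 : op R 𝒰 sex w + op R 𝒰 sx (op R 𝒰 ce w) - op R 𝒰 ce (op R 𝒰 sx w) =
          op R 𝒰 (sex - (ce * sx - sx * ce)) w := by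
        simp only [map_sub, map_mul, LinearMap.sub_apply, Module.End.mul_apply]
        abel
      rw [e1]
      refine hstab _ ((piE ι E).sub_mem hsexE (piE_lie hE _ hcE _ hsxE)) ?_ _ hw
      have e2 : (sex - (ce * sx - sx * ce)) * r = sex * r - ce * (sx * r) + sx * (ce * r) := by
        noncomm_ring
      have q1 : (Submodule.Quotient.mk (sex * r) : (ι → R) ⧸ Nul (R := R) 𝒰) =
          op R 𝒰 ce x := by
        rw [hsex, hs', alp_apply, rho_ι]
      have q2 : (Submodule.Quotient.mk (ce * (sx * r)) : (ι → R) ⧸ Nul (R := R) 𝒰) =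
          op R 𝒰 ce x := by
        rw [← op_mk, hsx, hs' x]
      have q3 : (Submodule.Quotient.mk (sx * (ce * r)) : (ι → R) ⧸ Nul (R := R) 𝒰) = 0 := by
        rw [← op_mk, mk_eq_zero.mpr (hr e e.2), map_zero]
      rw [e2, Submodule.Quotient.mk_add, Submodule.Quotient.mk_sub, q1, q2, q3, sub_self,
        add_zero]
  refine hrad P hP fun a ha => hK a ?_
  -- if `a` acts trivially on the tensor product then it maps `F (j+1)` to `F j`
  have hT' : Fw 𝒰 (piE ι E) r (j + 1) ≤ Fj.comap (rho E 𝒰 a) := by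
    refine Fw_succ_le ?_ ?_
    · intro f hf
      rw [Submodule.mem_comap]
      exact rho_stable hE hr j a _ (hle (mk_mem_Fw (le_Qw _ le_rfl hf)))
    · intro f hf w hw
      rw [Submodule.mem_comap]
      let x : F1 := T ⟨f, hf⟩
      have h3 : op R 𝒰 (f - (s x : ι → R)) w ∈ Fj := by
        refine hstab _ ((piE ι E).sub_mem hf (s x).2) ?_ w hw
        rw [sub_mul, Submodule.Quotient.mk_sub, hs' x, hT, sub_self]
      have h4 : quo hE hr j a (Fj.mkQ (op R 𝒰 (s x : ι → R) w)) = 0 := by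
        have := heq a (x ⊗ₜ ⟨w, hw⟩)
        rw [ha, LinearMap.zero_apply, map_zero] at this
        exact this.symm
      rw [← quo_apply, Submodule.mkQ_apply, Submodule.Quotient.mk_eq_zero] at h4
      have h5 : op R 𝒰 f w = op R 𝒰 (f - (s x : ι → R)) w + op R 𝒰 (s x : ι → R) w := by
        rw [map_sub, LinearMap.sub_apply]
        abel
      rw [h5, map_add]
      exact Fj.add_mem (rho_stable hE hr j a _ h3) h4
  exact fun w hw => hT' hw

end Step

end Pool.Agent.Helper87.ILN
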