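import Pool.Agent.Helper87.ILN.Words
import Pool.Agent.Helper87.ILN.Ideals

/-!
The ultraproduct module used in the induction step.
-/

set_option autoImplicit false

open scoped TensorProduct
open Polynomial

namespace Pool.Agent.Helper87.ILN

universe u v w

theorem intertwine {E : Type u} {X : Type v} {Y : Type w} [AddCommMonoid X] [Module ℚ X]
    [AddCommMonoid Y] [Module ℚ Y]
    (f : FreeAlgebra ℚ E →ₐ[ℚ] Module.End ℚ X) (g : FreeAlgebra ℚ E →ₐ[ℚ] Module.End ℚ Y)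
    (μ : X →ₗ[ℚ] Y)
    (h : ∀ e x, μ (f (FreeAlgebra.ι ℚ e) x) = g (FreeAlgebra.ι ℚ e) (μ x))
    (a : FreeAlgebra ℚ E) (x : X) : μ (f a x) = g a (μ x) := by
  induction a using FreeAlgebra.induction generalizing x with
  | grade0 r => simp [Module.algebraMap_end_apply]
  | grade1 e => exact h e x
  | mul a b iha ihb => rw [map_mul, map_mul, Module.End.mul_apply, Module.End.mul_apply, iha, ihb]
  | add a b iha ihb => rw [map_add, map_add, LinearMap.add_apply, LinearMap.add_apply, map_add,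
      iha, ihb]

section

variable {R : Type u} [Ring R] [Algebra ℚ R] {ι : Type v} (𝒰 : Filter ι)

/-- Functions vanishing along the filter. -/
def Nul : Submodule ℚ (ι → R) where
  carrier := {w | ∀ᶠ i in 𝒰, w i = 0}
  add_mem' := by
    intro a b ha hb
    filter_upwards [ha, hb] with i h1 h2
    simp [h1, h2]
  zero_mem' := Filter.Eventually.of_forall fun _ => rfl
  smul_mem' := by
    intro c a ha
    filter_upwards [ha] with i h1
    simp [h1]

variable {𝒰}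

theorem mem_Nul {w : ι → R} : w ∈ Nul (R := R) 𝒰 ↔ ∀ᶠ i in 𝒰, w i = 0 := Iff.rfl

theorem mul_mem_Nul (a : ι → R) {w : ι → R} (hw : w ∈ Nul (R := R) 𝒰) :
    a * w ∈ Nul (R := R) 𝒰 := by
  filter_upwards [hw] with i h1
  simp [h1]

variable (R) (𝒰)

/-- The left multiplication action on the quotient. -/
noncomputable def op : (ι → R) →ₐ[ℚ] Module.End ℚ ((ι → R) ⧸ Nul (R := R) 𝒰) where
  toFun a := (Nul (R := R) 𝒰).mapQ (Nul (R := R) 𝒰) (LinearMap.mulLeft ℚ a)
    (fun _ hw => mul_mem_Nul a hw)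
  map_one' := by
    refine LinearMap.ext fun x => ?_
    obtain ⟨w, rfl⟩ := Submodule.Quotient.mk_surjective _ x
    change Submodule.Quotient.mk (1 * w) = Submodule.Quotient.mk w
    rw [one_mul]
  map_mul' a b := by
    refine LinearMap.ext fun x => ?_
    obtain ⟨w, rfl⟩ := Submodule.Quotient.mk_surjective _ x
    change Submodule.Quotient.mk (a * b * w) = Submodule.Quotient.mk (a * (b * w))
    rw [mul_assoc]
  map_zero' := by
    refine LinearMap.ext fun x => ?_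
    obtain ⟨w, rfl⟩ := Submodule.Quotient.mk_surjective _ x
    change (Submodule.Quotient.mk (0 * w) : (ι → R) ⧸ Nul (R := R) 𝒰) = 0
    rw [zero_mul, Submodule.Quotient.mk_zero]
  map_add' a b := by
    refine LinearMap.ext fun x => ?_
    obtain ⟨w, rfl⟩ := Submodule.Quotient.mk_surjective _ x
    change (Submodule.Quotient.mk ((a + b) * w) : (ι → R) ⧸ Nul (R := R) 𝒰) =
      Submodule.Quotient.mk (a * w) + Submodule.Quotient.mk (b * w)
    rw [add_mul, Submodule.Quotient.mk_add]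
  commutes' q := by
    refine LinearMap.ext fun x => ?_
    obtain ⟨w, rfl⟩ := Submodule.Quotient.mk_surjective _ x
    rw [Module.algebraMap_end_apply]
    change Submodule.Quotient.mk (algebraMap ℚ (ι → R) q * w) = q • Submodule.Quotient.mk w
    rw [← Algebra.smul_def, Submodule.Quotient.mk_smul]

variable {R} {𝒰}

theorem op_mk (a w : ι → R) :
    op R 𝒰 a (Submodule.Quotient.mk w) = Submodule.Quotient.mk (a * w) := rfl

theorem mk_eq_zero {w : ι → R} :
    (Submodule.Quotient.mk w : (ι → R) ⧸ Nul (R := R) 𝒰) = 0 ↔ w ∈ Nul (R := R) 𝒰 :=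
  Submodule.Quotient.mk_eq_zero _

variable (𝒰) in
/-- Words of length at most `j` applied to `r`. -/
noncomputable def Fw (EA : Submodule ℚ (ι → R)) (r : ι → R) (j : ℕ) :
    Submodule ℚ ((ι → R) ⧸ Nul (R := R) 𝒰) :=
  (Qw EA j).map ((Nul (R := R) 𝒰).mkQ ∘ₗ LinearMap.mulRight ℚ r)

variable {EA : Submodule ℚ (ι → R)} {r : ι → R}

theorem mem_Fw {j : ℕ} {w : (ι → R) ⧸ Nul (R := R) 𝒰} :
    w ∈ Fw 𝒰 EA r j ↔ ∃ q ∈ Qw EA j, Submodule.Quotient.mk (q * r) = w := by
  simp [Fw, Submodule.mem_map]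

theorem mk_mem_Fw {j : ℕ} {q : ι → R} (hq : q ∈ Qw EA j) :
    (Submodule.Quotient.mk (q * r) : (ι → R) ⧸ Nul (R := R) 𝒰) ∈ Fw 𝒰 EA r j :=
  mem_Fw.mpr ⟨q, hq, rfl⟩

theorem Fw_mono : Monotone (Fw 𝒰 EA r) := fun _ _ h => Submodule.map_mono (Qw_mono EA h)

theorem op_mem_Fw_succ {j : ℕ} {z : ι → R} (hz : z ∈ EA) {w : (ι → R) ⧸ Nul (R := R) 𝒰}
    (hw : w ∈ Fw 𝒰 EA r j) : op R 𝒰 z w ∈ Fw 𝒰 EA r (j + 1) := by
  obtain ⟨q, hq, rfl⟩ := mem_Fw.mp hw
  rw [op_mk, ← mul_assoc]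
  exact mk_mem_Fw (mul_mem_Qw_succ hz hq)

/-- `F (j + 1)` is spanned by `F 1` and products. -/
theorem Fw_succ_le {j : ℕ} {T : Submodule ℚ ((ι → R) ⧸ Nul (R := R) 𝒰)}
    (h1 : ∀ f ∈ EA, (Submodule.Quotient.mk (f * r) : (ι → R) ⧸ Nul (R := R) 𝒰) ∈ T)
    (h2 : ∀ f ∈ EA, ∀ w ∈ Fw 𝒰 EA r j, op R 𝒰 f w ∈ T) : Fw 𝒰 EA r (j + 1) ≤ T := by
  rw [Fw, Submodule.map_le_iff_le_comap, Qw_succ]
  refine sup_le (fun f hf => h1 f hf) (Submodule.mul_le.mpr fun f hf q hq => ?_)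
  have := h2 f hf _ (mk_mem_Fw (r := r) (𝒰 := 𝒰) hq)
  rw [op_mk, ← mul_assoc] at this
  exact this

theorem op_stable (hEA : ∀ x ∈ EA, ∀ y ∈ EA, x * y - y * x ∈ EA) {z : ι → R} (hz : z ∈ EA)
    (hzr : z * r ∈ Nul (R := R) 𝒰) (j : ℕ) : ∀ w ∈ Fw 𝒰 EA r j, op R 𝒰 z w ∈ Fw 𝒰 EA r j := by
  have h1 : ∀ f ∈ EA, (Submodule.Quotient.mk (z * (f * r)) : (ι → R) ⧸ Nul (R := R) 𝒰) =
      Submodule.Quotient.mk ((z * f - f * z) * r) := by
    intro f _
    rw [Submodule.Quotient.eq]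
    have : z * (f * r) - (z * f - f * z) * r = f * (z * r) := by noncomm_ring
    rw [this]
    exact mul_mem_Nul f hzr
  induction j with
  | zero =>
    intro w hw
    obtain ⟨q, hq, rfl⟩ := mem_Fw.mp hw
    have hq0 : q = 0 := by simpa [Qw] using hq
    subst hq0
    rw [op_mk]
    simp
  | succ j ih =>
    have : Fw 𝒰 EA r (j + 1) ≤ (Fw 𝒰 EA r (j + 1)).comap (op R 𝒰 z) := by
      refine Fw_succ_le ?_ ?_
      · intro f hf
        rw [Submodule.mem_comap, op_mk, h1 f hf]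
        exact mk_mem_Fw (le_Qw EA (by omega) (hEA z hz f hf))
      · intro f hf w hw
        rw [Submodule.mem_comap, ← Module.End.mul_apply, ← map_mul]
        have e1 : z * f = (z * f - f * z) + f * z := by noncomm_ring
        rw [e1, map_add, LinearMap.add_apply, map_mul, Module.End.mul_apply]
        exact (Fw 𝒰 EA r (j + 1)).add_mem (op_mem_Fw_succ (hEA z hz f hf) hw)
          (op_mem_Fw_succ hf (ih w hw))
    exact this

theorem pow_mul_mem_Nul {n : ℕ} (hn : ∀ x ∈ EA, x ^ (n + 1) = 0) {z f : ι → R} (hz : z ∈ EA)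
    (hf : f ∈ EA) (hzr : z * r ∈ Nul (R := R) 𝒰) : z ^ n * (f * r) ∈ Nul (R := R) 𝒰 := by
  have key : linPart z f (n + 1) = 0 := by
    have : ((C z + X * C f) ^ (n + 1) : (ι → R)[X]).coeff 1 ∈ (⊥ : Submodule ℚ (ι → R)) := by
      refine coeff_mem_of_rat _ _ (fun t => ?_) 1
      rw [map_pow, evq_lin]
      rw [hn _ (EA.add_mem hz (EA.smul_mem _ hf))]
      simp
    rwa [coeff_one_pow, Submodule.mem_bot] at this
  have h2 : linPart z f (n + 1) * r = linPart z f n * (z * r) + z ^ n * (f * r) := by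
    simp only [linPart]
    noncomm_ring
  rw [key, zero_mul] at h2
  have h3 : z ^ n * (f * r) = -(linPart z f n * (z * r)) := by
    rw [eq_neg_iff_add_eq_zero, add_comm]
    exact h2.symm
  rw [h3]
  exact (Nul (R := R) 𝒰).neg_mem (mul_mem_Nul _ hzr)

end

end Pool.Agent.Helper87.ILN
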