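import Pool.Agent.Helper87.ILN.Coef

/-!
Spans of words of bounded length in a subspace closed under commutators, all of whose elements
are nilpotent of bounded index.
-/

set_option autoImplicit false

open Polynomial

namespace Pool.Agent.Helper87.ILN

universe u

variable {R : Type u} [Ring R] [Algebra ℚ R]

/-- Span of the words of length between `1` and `j` in elements of `E`. -/
def Qw (E : Submodule ℚ R) : ℕ → Submodule ℚ R
  | 0 => ⊥
  | j + 1 => E ⊔ E * Qw E j

theorem Qw_succ (E : Submodule ℚ R) (j : ℕ) : Qw E (j + 1) = E ⊔ E * Qw E j := rfl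

theorem Qw_le_succ (E : Submodule ℚ R) (j : ℕ) : Qw E j ≤ Qw E (j + 1) := by
  induction j with
  | zero => exact bot_le
  | succ j ih =>
    rw [Qw_succ E j, Qw_succ E (j + 1)]
    exact sup_le_sup_left (mul_le_mul' le_rfl ih) _

theorem Qw_mono (E : Submodule ℚ R) : Monotone (Qw E) :=
  monotone_nat_of_le_succ (Qw_le_succ E)

theorem le_Qw (E : Submodule ℚ R) {j : ℕ} (hj : 1 ≤ j) : E ≤ Qw E j := by
  obtain ⟨j, rfl⟩ := Nat.exists_eq_add_of_le' hj
  rw [Qw_succ]
  exact le_sup_left

theorem mul_mem_Qw_succ {E : Submodule ℚ R} {j : ℕ} {e q : R} (he : e ∈ E) (hq : q ∈ Qw E j) :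
    e * q ∈ Qw E (j + 1) := by
  rw [Qw_succ]
  exact (le_sup_right : E * Qw E j ≤ _) (Submodule.mul_mem_mul he hq)

theorem prod_mem_Qw {E : Submodule ℚ R} {j : ℕ} : ∀ {l : List R}, (∀ x ∈ l, x ∈ E) → l ≠ [] →
    l.length ≤ j → l.prod ∈ Qw E j := by
  induction j with
  | zero =>
    intro l _ hne hlen
    exact absurd (List.length_eq_zero_iff.mp (Nat.le_zero.mp hlen)) hne
  | succ j ih =>
    intro l hl hne hlen
    match l, hne with
    | [x], _ =>
      simpa using le_Qw E (Nat.succ_le_succ (Nat.zero_le j)) (hl x (by simp))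
    | x :: y :: l, _ =>
      rw [List.prod_cons]
      refine mul_mem_Qw_succ (hl x (by simp)) (ih (fun z hz => hl z (by simp [hz])) (by simp) ?_)
      simp only [List.length_cons] at hlen ⊢
      omega

theorem Qw_le_of {E : Submodule ℚ R} {j : ℕ} : ∀ {T : Submodule ℚ R},
    (∀ l : List R, (∀ x ∈ l, x ∈ E) → l ≠ [] → l.length ≤ j → l.prod ∈ T) → Qw E j ≤ T := by
  induction j with
  | zero => intro T _; exact bot_le
  | succ j ih =>
    intro T hT
    rw [Qw_succ]
    refine sup_le (fun x hx => ?_) (Submodule.mul_le.mpr fun e he q hq => ?_)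
    · simpa using hT [x] (by simpa using hx) (by simp) (by simp)
    · have : Qw E j ≤ T.comap (LinearMap.mulLeft ℚ e) := by
        refine ih fun l hl _ hlen => ?_
        rw [Submodule.mem_comap, LinearMap.mulLeft_apply, ← List.prod_cons]
        refine hT (e :: l) ?_ (by simp) (by simpa using hlen)
        intro x hx
        rcases List.mem_cons.mp hx with rfl | hx
        · exact he
        · exact hl x hx
      exact this hq

theorem perm_prod_sub_mem {E : Submodule ℚ R} (hE : ∀ x ∈ E, ∀ y ∈ E, x * y - y * x ∈ E)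
    {l l' : List R} (h : l.Perm l') : (∀ x ∈ l, x ∈ E) → ∀ {m : ℕ}, l.length = m + 1 →
    l.prod - l'.prod ∈ Qw E m := by
  induction h with
  | nil => intro _ m _; simp
  | cons x h ih =>
    rename_i l₁ l₂
    intro hl m hm
    rw [List.prod_cons, List.prod_cons, ← mul_sub]
    match m with
    | 0 =>
      have h1 : l₁ = [] := List.length_eq_zero_iff.mp (by simpa using hm)
      subst h1
      have h2 : l₂ = [] := List.Perm.nil_eq h ▸ rfl
      subst h2
      simp
    | m + 1 =>
      refine mul_mem_Qw_succ (hl x (by simp)) (ih (fun z hz => hl z (by simp [hz])) ?_)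
      simpa using hm
  | swap x y l =>
    intro hl m hm
    simp only [List.length_cons] at hm
    have : (y :: x :: l).prod - (x :: y :: l).prod = ((y * x - x * y) :: l).prod := by
      simp only [List.prod_cons]
      noncomm_ring
    rw [this]
    refine prod_mem_Qw ?_ (by simp) (by simp; omega)
    intro z hz
    rcases List.mem_cons.mp hz with rfl | hz
    · exact hE _ (hl y (by simp)) _ (hl x (by simp))
    · exact hl z (by simp [hz])
  | trans h₁ _ ih₁ ih₂ =>
    rename_i l₁ l₂ l₃
    intro hl m hm
    have := (Qw E m).add_mem (ih₁ hl hm)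
      (ih₂ (fun z hz => hl z (h₁.mem_iff.mpr hz)) (h₁.length_eq ▸ hm))
    simpa using this

theorem linPart_eq (x e : R) (m : ℕ) :
    linPart x e m = ∑ i ∈ Finset.range m, x ^ i * e * x ^ (m - 1 - i) := by
  induction m with
  | zero => simp [linPart]
  | succ m ih =>
    rw [linPart, ih, Finset.sum_range_succ, Finset.sum_mul]
    congr 1
    · refine Finset.sum_congr rfl fun i hi => ?_
      have hi' := Finset.mem_range.mp hi
      rw [mul_assoc, ← pow_succ]
      congr 2
      omega
    · simp

/-- Polarisation: words of length `n + 1` are combinations of shorter words. -/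
theorem pow_mul_prod_mem {E : Submodule ℚ R} (hE : ∀ x ∈ E, ∀ y ∈ E, x * y - y * x ∈ E)
    {n : ℕ} (hn : ∀ x ∈ E, x ^ (n + 1) = 0) : ∀ (l : List R), (∀ y ∈ l, y ∈ E) →
    l.length ≤ n + 1 → ∀ x ∈ E, x ^ (n + 1 - l.length) * l.prod ∈ Qw E n := by
  intro l
  induction l with
  | nil => intro _ _ x hx; simp [hn x hx]
  | cons e l ih =>
    intro hl hlen x hx
    have hl' : ∀ y ∈ l, y ∈ E := fun y hy => hl y (by simp [hy])
    have he : e ∈ E := hl e (by simp)
    simp only [List.length_cons] at hlen
    have hlen' : l.length ≤ n + 1 := by omega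
    set m := n + 1 - l.length with hm
    have hm1 : 1 ≤ m := by omega
    -- the polynomial `(x + t e) ^ m * l.prod`
    have key : ((C x + X * C e) ^ m * C l.prod : R[X]).coeff 1 ∈ Qw E n := by
      refine coeff_mem_of_rat _ _ (fun t => ?_) 1
      rw [map_mul, map_pow, evq_lin, evq_C]
      exact ih hl' hlen' _ (E.add_mem hx (E.smul_mem _ he))
    rw [coeff_mul_C, coeff_one_pow, linPart_eq, Finset.sum_mul] at key
    have h2 : ∀ i ∈ Finset.range m, x ^ i * e * x ^ (m - 1 - i) * l.prod
        - x ^ (m - 1) * (e :: l).prod ∈ Qw E n := by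
      intro i hi
      have hi' := Finset.mem_range.mp hi
      have e1 : x ^ i * e * x ^ (m - 1 - i) * l.prod =
          (List.replicate i x ++ ([e] ++ (List.replicate (m - 1 - i) x ++ l))).prod := by
        simp [List.prod_append, mul_assoc]
      have e2 : x ^ (m - 1) * (e :: l).prod = (List.replicate (m - 1) x ++ ([e] ++ l)).prod := by
        simp [List.prod_append]
      have hp : (List.replicate i x ++ ([e] ++ (List.replicate (m - 1 - i) x ++ l))).Perm
          (List.replicate (m - 1) x ++ ([e] ++ l)) := by
        have e3 : List.replicate (m - 1) x = List.replicate i x ++ List.replicate (m - 1 - i) x := by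
          rw [← List.replicate_add]
          congr 1
          omega
        rw [e3, List.append_assoc]
        refine List.Perm.append_left _ ?_
        rw [← List.append_assoc, ← List.append_assoc]
        exact List.Perm.append_right _ List.perm_append_comm
      rw [e1, e2]
      refine perm_prod_sub_mem hE hp ?_ ?_
      · intro z hz
        simp only [List.mem_append, List.mem_replicate, List.mem_singleton] at hz
        rcases hz with ⟨_, rfl⟩ | rfl | ⟨_, rfl⟩ | hz
        · exact hx
        · exact he
        · exact hx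
        · exact hl' z hz
      · simp
        omega
    have h3 : (m : ℚ) • (x ^ (m - 1) * (e :: l).prod) ∈ Qw E n := by
      have h4 := (Qw E n).sub_mem key (Submodule.sum_mem _ h2)
      rw [← Finset.sum_sub_distrib] at h4
      simp only [sub_sub_cancel, Finset.sum_const, Finset.card_range] at h4
      rwa [Nat.cast_smul_eq_nsmul]
    have h5 := (Qw E n).smul_mem ((m : ℚ)⁻¹) h3
    rw [smul_smul, inv_mul_cancel₀ (by positivity), one_smul] at h5
    have h6 : n + 1 - (e :: l).length = m - 1 := by
      simp only [List.length_cons]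
      omega
    rw [h6]
    exact h5

theorem mul_Qw_le {E : Submodule ℚ R} (hE : ∀ x ∈ E, ∀ y ∈ E, x * y - y * x ∈ E)
    {n : ℕ} (hn : ∀ x ∈ E, x ^ (n + 1) = 0) {e q : R} (he : e ∈ E) (hq : q ∈ Qw E n) :
    e * q ∈ Qw E n := by
  have h1 : Qw E n ≤ (Qw E n).comap (LinearMap.mulLeft ℚ e) := by
    refine Qw_le_of fun l hl hne hlen => ?_
    rw [Submodule.mem_comap, LinearMap.mulLeft_apply, ← List.prod_cons]
    have hl' : ∀ x ∈ e :: l, x ∈ E := by
      intro x hx
      rcases List.mem_cons.mp hx with rfl | hx
      · exact he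
      · exact hl x hx
    rcases Nat.lt_or_ge l.length n with h | h
    · exact prod_mem_Qw hl' (by simp) (by simpa using h)
    · have hlen' : (e :: l).length = n + 1 := by simp; omega
      have := pow_mul_prod_mem hE hn (e :: l) hl' (by omega) e he
      rw [hlen', Nat.sub_self, pow_zero, one_mul] at this
      exact this
  exact h1 hq

/-- If `E` generates the algebra then everything is a scalar plus an element of `Qw E n`. -/
theorem one_sup_Qw_eq_top {E : Submodule ℚ R} (hE : ∀ x ∈ E, ∀ y ∈ E, x * y - y * x ∈ E)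
    {n : ℕ} (hn1 : 1 ≤ n) (hn : ∀ x ∈ E, x ^ (n + 1) = 0)
    (hgen : Algebra.adjoin ℚ (E : Set R) = ⊤) :
    (1 : Submodule ℚ R) ⊔ Qw E n = ⊤ := by
  rw [eq_top_iff]
  intro x _
  have hx : x ∈ Algebra.adjoin ℚ (E : Set R) := hgen ▸ Algebra.mem_top
  -- left multiplication by `x` preserves the subspace
  have key : ∀ y ∈ (1 : Submodule ℚ R) ⊔ Qw E n, x * y ∈ (1 : Submodule ℚ R) ⊔ Qw E n := by
    induction hx using Algebra.adjoin_induction with
    | mem e he =>
      intro y hy
      refine Submodule.mem_sup_right ?_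
      obtain ⟨a, ha, b, hb, rfl⟩ := Submodule.mem_sup.mp hy
      rw [mul_add]
      refine (Qw E n).add_mem ?_ (mul_Qw_le hE hn he hb)
      obtain ⟨q, rfl⟩ := Submodule.mem_one.mp ha
      rw [← Algebra.commutes, ← Algebra.smul_def]
      exact (Qw E n).smul_mem _ (le_Qw E hn1 he)
    | algebraMap r =>
      intro y hy
      rw [← Algebra.smul_def]
      exact Submodule.smul_mem _ _ hy
    | add a b _ _ iha ihb =>
      intro y hy
      rw [add_mul]
      exact Submodule.add_mem _ (iha (by trivial) y hy) (ihb (by trivial) y hy)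
    | mul a b _ _ iha ihb =>
      intro y hy
      rw [mul_assoc]
      exact iha (by trivial) _ (ihb (by trivial) y hy)
  have := key 1 (Submodule.mem_sup_left (Submodule.one_le.mp le_rfl))
  simpa using this

end Pool.Agent.Helper87.ILN
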